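import Pool.Agent.W_7d29a1_Z22.Jens
import Pool.Agent.W_7d29a1_Z.Samp81

/-!
STORM Z, (RC), the probabilistic part. `e ∈ K` are the ends of the kernels (finitely many), `S e` the skeletons of the kernel `e`,
`p e w i` the weight of the skeleton `i` in the environment `w`, `φ e w j i`, `ψ e w j i` the logarithmic changes of the weight under
the shear of the block `(j, i)` (group `j`, block `i` of the group) by `+1` and `-1`. Off the event `N`: good skeletons carry almost
all the weight, the even part is small, the one-sided top bound `U` holds for both signs of the full pattern. Then there is ONE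
deterministic choice `β` of a block in each group such that the shear of the chosen blocks changes the logarithms of all the
kernels by at most `Γ / l + s + 1`, whp. (helper22, with `exists_sample` of helper81)
-/

namespace Pool.Agent.W_7d29a1_Z22

open Finset MeasureTheory

noncomputable section

variable {α E Ω : Type*} [MeasurableSpace Ω]

/-- The good skeletons: every block responds by at most `A` to both signs. -/
def gd (n l : ℕ) (A : ℝ) (S : Finset α) (φ ψ : Fin n → Fin l → α → ℝ) : Finset α := by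
  classical
  exact {x ∈ S | ∀ j i, |φ j i x| ≤ A ∧ |ψ j i x| ≤ A}

theorem mem_gd {n l : ℕ} {A : ℝ} {S : Finset α} {φ ψ : Fin n → Fin l → α → ℝ} {x : α} :
    x ∈ gd n l A S φ ψ ↔ x ∈ S ∧ ∀ j i, |φ j i x| ≤ A ∧ |ψ j i x| ≤ A := by
  unfold gd
  exact mem_filter

theorem gd_subset {n l : ℕ} {A : ℝ} {S : Finset α} {φ ψ : Fin n → Fin l → α → ℝ} : gd n l A S φ ψ ⊆ S :=
  fun _ h => (mem_gd.1 h).1

/-- **The state of one kernel in one environment**: `S` all skeletons, `T ⊆ S` the typical ones, weights `p`, responses `φ`, `ψ` of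
the blocks to the two signs (real on `T`). The total mean will be at most `U + 1 + lam + 3 η n l A`. -/
structure Fine (n l : ℕ) (A η lam U : ℝ) (S T : Finset α) (p : α → ℝ) (φ ψ : Fin n → Fin l → α → ℝ) : Prop where
  nonneg : ∀ x ∈ S, 0 ≤ p x
  pos : 0 < ∑ x ∈ S, p x
  good : (1 - η) * ∑ x ∈ S, p x ≤ ∑ x ∈ gd n l A T φ ψ, p x
  even : ∑ x ∈ T with lam < |∑ j, ∑ i, (φ j i x + ψ j i x)|, p x ≤ η * ∑ x ∈ S, p x
  topp : Real.log (∑ x ∈ T, p x * Real.exp (∑ j, ∑ i, φ j i x)) - Real.log (∑ x ∈ S, p x) ≤ U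
  topm : Real.log (∑ x ∈ T, p x * Real.exp (∑ j, ∑ i, ψ j i x)) - Real.log (∑ x ∈ S, p x) ≤ U

variable {n l : ℕ} {A η lam U : ℝ} {S T : Finset α} {p : α → ℝ} {φ ψ : Fin n → Fin l → α → ℝ}

theorem Fine.g34 (h : Fine n l A η lam U S T p φ ψ) (hη : η ≤ 1 / 4) :
    3 / 4 * ∑ x ∈ S, p x ≤ ∑ x ∈ gd n l A T φ ψ, p x := by
  refine le_trans ?_ h.good
  nlinarith [h.pos]

theorem Fine.gpos (h : Fine n l A η lam U S T p φ ψ) (hη : η ≤ 1 / 4) : 0 < ∑ x ∈ gd n l A T φ ψ, p x :=
  lt_of_lt_of_le (by linarith [h.pos]) (h.g34 hη)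

theorem Fine.abs_le (h : Fine n l A η lam U S T p φ ψ) (hT : T ⊆ S) (hη : η ≤ 1 / 4) (j : Fin n) (i : Fin l) :
    |cm (gd n l A T φ ψ) p (φ j i)| ≤ A ∧ |cm (gd n l A T φ ψ) p (ψ j i)| ≤ A :=
  ⟨abs_cm_le (fun x hx => h.nonneg x (hT (gd_subset hx))) (h.gpos hη) fun x hx => ((mem_gd.1 hx).2 j i).1,
    abs_cm_le (fun x hx => h.nonneg x (hT (gd_subset hx))) (h.gpos hη) fun x hx => ((mem_gd.1 hx).2 j i).2⟩

/-- Both full means are small. -/
theorem Fine.full (h : Fine n l A η lam U S T p φ ψ) (hT : T ⊆ S) (hη0 : 0 ≤ η) (hη : η ≤ 1 / 4) (hA : 0 ≤ A) (hlam : 0 ≤ lam) :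
    |∑ j, ∑ i, cm (gd n l A T φ ψ) p (φ j i)| ≤ U + 1 + lam + 3 * (η * (n * l * A)) ∧
      |∑ j, ∑ i, cm (gd n l A T φ ψ) p (ψ j i)| ≤ U + 1 + lam + 3 * (η * (n * l * A)) := by
  have hc : ((univ : Finset (Fin n × Fin l)).card : ℝ) = n * l := by simp
  have e : ∀ f : Fin n → Fin l → ℝ, ∑ b : Fin n × Fin l, f b.1 b.2 = ∑ j, ∑ i, f j i := fun f =>
    Fintype.sum_prod_type _
  have hmain := both_signs (s := S) (r := T) (G := gd n l A T φ ψ) (p := p) (bs := (univ : Finset (Fin n × Fin l)))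
    (φ := fun b => φ b.1 b.2) (ψ := fun b => ψ b.1 b.2) (A := A) (η := η) (lam := lam) (U := U) gd_subset hT h.nonneg h.pos hη0
    hη hA hlam h.good (fun b _ x hx => ((mem_gd.1 hx).2 b.1 b.2).1) (fun b _ x hx => ((mem_gd.1 hx).2 b.1 b.2).2)
    (by simpa only [Fintype.sum_prod_type] using h.even)
    (by simpa only [Fintype.sum_prod_type] using h.topp)
    (by simpa only [Fintype.sum_prod_type] using h.topm)
  rw [hc, e (fun j i => cm (gd n l A T φ ψ) p (φ j i)), e (fun j i => cm (gd n l A T φ ψ) p (ψ j i))] at hmain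
  exact hmain

/-- The change of the logarithm of the kernel, when the block `β j` of each group is sheared (sum over the typical skeletons). -/
def gain (S T : Finset α) (p : α → ℝ) (φ : Fin n → Fin l → α → ℝ) (β : Fin n → Fin l) : ℝ :=
  Real.log (∑ x ∈ T, p x * Real.exp (∑ j, φ j (β j) x)) - Real.log (∑ x ∈ S, p x)

theorem Fine.gain_ge (h : Fine n l A η lam U S T p φ ψ) (hT : T ⊆ S) (hη : η ≤ 1 / 4) {β : Fin n → Fin l} {τ : ℝ}
    (hS : |∑ j, cm (gd n l A T φ ψ) p (φ j (β j))| ≤ τ) : -(τ + 1) ≤ gain S T p φ β :=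
  sub_blocks' (β := (univ : Finset (Fin n))) (φ := fun j => φ j (β j)) gd_subset hT h.nonneg h.pos (h.g34 hη) hS

theorem Fine.gain_ge' (h : Fine n l A η lam U S T p φ ψ) (hT : T ⊆ S) (hη : η ≤ 1 / 4) {β : Fin n → Fin l} {τ : ℝ}
    (hS : |∑ j, cm (gd n l A T φ ψ) p (ψ j (β j))| ≤ τ) : -(τ + 1) ≤ gain S T p ψ β :=
  sub_blocks' (β := (univ : Finset (Fin n))) (φ := fun j => ψ j (β j)) gd_subset hT h.nonneg h.pos (h.g34 hη) hS

/-- **(RC), one-sided, with one deterministic choice of the blocks**: off `N` all kernels `e ∈ K` are in the state `Fine`. -/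
theorem rc_sample (μ : Measure Ω) [IsProbabilityMeasure μ] (K : Finset E) (hl : 0 < l) (hn : 0 < n) (S T : E → Finset α)
    (hT : ∀ e, T e ⊆ S e) (p : E → Ω → α → ℝ) (φ ψ : E → Ω → Fin n → Fin l → α → ℝ)
    (hp : ∀ e, ∀ x ∈ T e, Measurable fun w => p e w x) (hφ : ∀ e j i, ∀ x ∈ T e, Measurable fun w => φ e w j i x)
    (hψ : ∀ e j i, ∀ x ∈ T e, Measurable fun w => ψ e w j i x) {s : ℝ} (hA : 0 < A) (hη0 : 0 ≤ η) (hη : η ≤ 1 / 4)
    (hlam : 0 ≤ lam) (hs : 0 ≤ s) (N : Set Ω) (hN : MeasurableSet N)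
    (hf : ∀ w, w ∉ N → ∀ e ∈ K, Fine n l A η lam U (S e) (T e) (p e w) (φ e w) (ψ e w)) :
    ∃ β : Fin n → Fin l,
      μ.real {w | ∃ e ∈ K, gain (S e) (T e) (p e w) (φ e w) β < -((U + 1 + lam + 3 * (η * (n * l * A))) / l + s + 1) ∨
        gain (S e) (T e) (p e w) (ψ e w) β < -((U + 1 + lam + 3 * (η * (n * l * A))) / l + s + 1)} ≤
        2 * μ.real N + 4 * (K.card * Real.exp (-(s ^ 2 / (8 * A ^ 2 * n)))) := by
  classical
  set Γ : ℝ := U + 1 + lam + 3 * (η * (n * l * A)) with hΓdef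
  have hgm : ∀ e, ∀ x ∈ T e, MeasurableSet {w | x ∈ gd n l A (T e) (φ e w) (ψ e w)} := by
    intro e x hx
    have e1 : {w | x ∈ gd n l A (T e) (φ e w) (ψ e w)} =
        ⋂ j : Fin n, ⋂ i : Fin l, ({w | |φ e w j i x| ≤ A} ∩ {w | |ψ e w j i x| ≤ A}) := by
      ext w
      simp only [Set.mem_setOf_eq, Set.mem_iInter, Set.mem_inter_iff, mem_gd]
      exact ⟨fun h => h.2, fun h => ⟨hx, h⟩⟩
    rw [e1]
    exact MeasurableSet.iInter fun j => MeasurableSet.iInter fun i =>
      (measurableSet_le (hφ e j i x hx).abs measurable_const).inter (measurableSet_le (hψ e j i x hx).abs measurable_const)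
  have hcm : ∀ (f : E → Ω → Fin n → Fin l → α → ℝ), (∀ e j i, ∀ x ∈ T e, Measurable fun w => f e w j i x) →
      ∀ e j i, Measurable fun w => cm (gd n l A (T e) (φ e w) (ψ e w)) (p e w) (f e w j i) := fun f hf' e j i =>
    measurable_cm (fun w => gd_subset) (hgm e) (hp e) (hf' e j i)
  -- one family: (e, true) for φ and (e, false) for ψ
  set h : E × Bool → Ω → Fin n → Fin l → ℝ := fun k w j i =>
    if k.2 then cm (gd n l A (T k.1) (φ k.1 w) (ψ k.1 w)) (p k.1 w) (φ k.1 w j i)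
      else cm (gd n l A (T k.1) (φ k.1 w) (ψ k.1 w)) (p k.1 w) (ψ k.1 w j i) with hh
  obtain ⟨β, hβ⟩ := W_7d29a1_Z.Samp81.exists_sample μ (K ×ˢ (univ : Finset Bool)) (n := n) (l := l) hl hn h
    (by
      rintro ⟨e, b⟩ j i
      cases b
      · simpa [hh] using hcm ψ hψ e j i
      · simpa [hh] using hcm φ hφ e j i)
    (A := A) (Γ := Γ) (s := s) hA hs N hN
    (by
      rintro w hw ⟨e, b⟩ hk j i
      have he := (mem_product.1 hk).1
      have h1 := (hf w hw e he).abs_le (hT e) hη j i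
      cases b
      · simpa [hh] using h1.2
      · simpa [hh] using h1.1)
    (by
      rintro w hw ⟨e, b⟩ hk
      have he := (mem_product.1 hk).1
      have h1 := (hf w hw e he).full (hT e) hη0 hη hA.le hlam
      cases b
      · simpa only [hh, if_false, Bool.false_eq_true] using h1.2
      · simpa only [hh, if_true] using h1.1)
  refine ⟨β, ?_⟩
  have hsub : {w | ∃ e ∈ K, gain (S e) (T e) (p e w) (φ e w) β < -(Γ / l + s + 1) ∨
        gain (S e) (T e) (p e w) (ψ e w) β < -(Γ / l + s + 1)} ⊆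
      N ∪ {w | ∃ k ∈ K ×ˢ (univ : Finset Bool), Γ / l + s ≤ |∑ j, h k w j (β j)|} := by
    rintro w ⟨e, he, hw⟩
    by_cases hwN : w ∈ N
    · exact Or.inl hwN
    right
    have hF := hf w hwN e he
    rcases hw with hw | hw
    · refine ⟨(e, true), mem_product.2 ⟨he, mem_univ _⟩, ?_⟩
      by_contra hc
      have := hF.gain_ge (hT e) hη (β := β) (τ := Γ / l + s) (by
        have := (not_le.1 hc).le
        simpa [hh] using this)
      linarith
    · refine ⟨(e, false), mem_product.2 ⟨he, mem_univ _⟩, ?_⟩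
      by_contra hc
      have := hF.gain_ge' (hT e) hη (β := β) (τ := Γ / l + s) (by
        have := (not_le.1 hc).le
        simpa [hh] using this)
      linarith
  refine (measureReal_mono hsub (measure_ne_top μ _)).trans ((measureReal_union_le _ _).trans ?_)
  rw [card_product] at hβ
  have : ((K.card * (univ : Finset Bool).card : ℕ) : ℝ) = 2 * K.card := by
    simp
    ring
  rw [this] at hβ
  linarith

/-- The preimage of any set under a measure preserving map is not larger than the set. -/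
theorem real_preimage_le {μ : Measure Ω} [IsProbabilityMeasure μ] {T : Ω → Ω} (hT : MeasurePreserving T μ μ) (B : Set Ω) :
    μ.real (T ⁻¹' B) ≤ μ.real B := by
  have h1 : μ (T ⁻¹' B) ≤ μ B := by
    calc μ (T ⁻¹' B) ≤ μ (T ⁻¹' (toMeasurable μ B)) := measure_mono (Set.preimage_mono (subset_toMeasurable μ B))
      _ = μ (toMeasurable μ B) := hT.measure_preimage (measurableSet_toMeasurable μ B).nullMeasurableSet
      _ = μ B := measure_toMeasurable B
  exact ENNReal.toReal_mono (measure_ne_top μ _) h1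

/-- **(RC), two-sided.** `act β` is the shear of the blocks chosen by `β`, `sh` the displacement of the ends, `X e w` the logarithm of
the kernel `e` in the environment `w`; forwards at `w` and backwards at `act β w`. -/
theorem rc_two (μ : Measure Ω) [IsProbabilityMeasure μ] (K K0 : Finset E) (hl : 0 < l) (hn : 0 < n) (S T : E → Finset α)
    (hT : ∀ e, T e ⊆ S e) (p : E → Ω → α → ℝ) (φ ψ : E → Ω → Fin n → Fin l → α → ℝ)
    (hp : ∀ e, ∀ x ∈ T e, Measurable fun w => p e w x) (hφ : ∀ e j i, ∀ x ∈ T e, Measurable fun w => φ e w j i x)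
    (hψ : ∀ e j i, ∀ x ∈ T e, Measurable fun w => ψ e w j i x) {s : ℝ} (hA : 0 < A) (hη0 : 0 ≤ η) (hη : η ≤ 1 / 4)
    (hlam : 0 ≤ lam) (hs : 0 ≤ s) (N : Set Ω) (hN : MeasurableSet N)
    (hf : ∀ w, w ∉ N → ∀ e ∈ K, Fine n l A η lam U (S e) (T e) (p e w) (φ e w) (ψ e w))
    (X : E → Ω → ℝ) (act : (Fin n → Fin l) → Ω → Ω) (sh : E → E) (hact : ∀ β, MeasurePreserving (act β) μ μ)
    (hK0 : K0 ⊆ K) (hsh : ∀ e ∈ K0, sh e ∈ K)
    (hfw : ∀ β, ∀ e ∈ K0, ∀ w, gain (S e) (T e) (p e w) (φ e w) β ≤ X (sh e) (act β w) - X e w)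
    (hbw : ∀ β, ∀ e ∈ K0, ∀ w, gain (S (sh e)) (T (sh e)) (p (sh e) (act β w)) (ψ (sh e) (act β w)) β ≤
      X e w - X (sh e) (act β w)) :
    ∃ β : Fin n → Fin l,
      μ.real {w | ∃ e ∈ K0, (U + 1 + lam + 3 * (η * (n * l * A))) / l + s + 1 < |X (sh e) (act β w) - X e w|} ≤
        4 * μ.real N + 8 * (K.card * Real.exp (-(s ^ 2 / (8 * A ^ 2 * n)))) := by
  obtain ⟨β, hβ⟩ := rc_sample μ K hl hn S T hT p φ ψ hp hφ hψ hA hη0 hη hlam hs N hN hf
  refine ⟨β, ?_⟩
  set Bad : Set Ω := {w | ∃ e ∈ K, gain (S e) (T e) (p e w) (φ e w) β <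
        -((U + 1 + lam + 3 * (η * (n * l * A))) / l + s + 1) ∨
        gain (S e) (T e) (p e w) (ψ e w) β < -((U + 1 + lam + 3 * (η * (n * l * A))) / l + s + 1)} with hBad
  have hsub : {w | ∃ e ∈ K0, (U + 1 + lam + 3 * (η * (n * l * A))) / l + s + 1 < |X (sh e) (act β w) - X e w|} ⊆
      Bad ∪ (act β) ⁻¹' Bad := by
    rintro w ⟨e, he, hw⟩
    rcases lt_abs.1 hw with h | h
    · right
      refine ⟨sh e, hsh e he, Or.inr ?_⟩
      have := hbw β e he w
      linarith
    · left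
      refine ⟨e, hK0 he, Or.inl ?_⟩
      have := hfw β e he w
      linarith
  refine (measureReal_mono hsub (measure_ne_top μ _)).trans ((measureReal_union_le _ _).trans ?_)
  have := real_preimage_le (hact β) Bad
  linarith

/-- Markov, for the passage from an annealed probability to a quenched one. -/
theorem real_lt_le_of_integral_le {μ : Measure Ω} [IsProbabilityMeasure μ] {f : Ω → ℝ} (hf0 : ∀ w, 0 ≤ f w)
    (hfi : Integrable f μ) {η δ : ℝ} (hη : 0 < η) (h : ∫ w, f w ∂μ ≤ δ) : μ.real {w | η < f w} ≤ δ / η := by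
  have h1 := mul_meas_ge_le_integral_of_nonneg (μ := μ) (Filter.Eventually.of_forall hf0) hfi η
  have h2 : μ.real {w | η < f w} ≤ μ.real {w | η ≤ f w} := measureReal_mono (fun w (hw : η < f w) => (le_of_lt hw : η ≤ f w)) (measure_ne_top μ _)
  rw [le_div_iff₀ hη]
  have h3 : η * μ.real {w | η ≤ f w} ≤ ∫ w, f w ∂μ := h1
  nlinarith

end

end Pool.Agent.W_7d29a1_Z22
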