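import Pool.Agent.W_7d29a1_Z22.TopU
import Pool.Agent.W_7d29a1_Z.Defs

/-!
STORM Z, leaf PB: bounds of all the point to point weights of a box, outside an event of probability `exp (- L ^ c)`. (helper22)
-/

namespace Pool.Agent.W_7d29a1_Z22

open MeasureTheory ProbabilityTheory Filter Topology
open Pool.Agent.W_7d29a1_F Pool.Agent.W_7d29a1_h4g Pool.Agent.W_7d29a1_G Pool.Agent.W_7d29a1_SR
open Pool.Agent.W_7d29a1_Z (wd' EE')

/-- A stretched exponential absorbs powers. -/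
theorem absorb (A k : ℝ) {b g : ℝ} (hb : 0 < b) (hg : 0 < g) :
    ∀ᶠ L : ℕ in atTop, A * (L : ℝ) ^ k * Real.exp (-(b * (L : ℝ) ^ g)) ≤ Real.exp (-(L : ℝ) ^ (g / 2)) := by
  have h1 := (isLittleO_rpow_exp_atTop (2 * k / g)).bound (show (0 : ℝ) < 1 / (|A| + 1) by positivity)
  have hy : Tendsto (fun L : ℕ => (L : ℝ) ^ (g / 2)) atTop atTop :=
    (tendsto_rpow_atTop (by positivity : 0 < g / 2)).comp tendsto_natCast_atTop_atTop
  filter_upwards [hy.eventually h1, hy.eventually_ge_atTop (2 / b), eventually_ge_atTop 1] with L h2 h3 h4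
  have hL : (0 : ℝ) < L := by exact_mod_cast h4
  set y : ℝ := (L : ℝ) ^ (g / 2) with hydef
  have hy0 : 0 < y := Real.rpow_pos_of_pos hL _
  have e1 : (L : ℝ) ^ g = y ^ 2 := by
    rw [hydef, ← Real.rpow_natCast ((L : ℝ) ^ (g / 2)) 2, ← Real.rpow_mul hL.le]
    congr 1
    push_cast
    ring
  have e2 : (L : ℝ) ^ k = y ^ (2 * k / g) := by
    rw [hydef, ← Real.rpow_mul hL.le]
    congr 1
    field_simp
  rw [Real.norm_of_nonneg (Real.rpow_nonneg hy0.le _), Real.norm_of_nonneg (Real.exp_pos _).le] at h2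
  have h5 : A * (L : ℝ) ^ k ≤ Real.exp y := by
    rw [e2]
    have h6 : 0 ≤ y ^ (2 * k / g) := Real.rpow_nonneg hy0.le _
    have h7 : A * y ^ (2 * k / g) ≤ (|A| + 1) * y ^ (2 * k / g) :=
      mul_le_mul_of_nonneg_right (by linarith [le_abs_self A]) h6
    have h8 : (|A| + 1) * y ^ (2 * k / g) ≤ (|A| + 1) * (1 / (|A| + 1) * Real.exp y) :=
      mul_le_mul_of_nonneg_left h2 (by positivity)
    have h9 : (|A| + 1) * (1 / (|A| + 1) * Real.exp y) = Real.exp y := by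
      field_simp
    linarith
  have h10 : 2 * y ≤ b * y ^ 2 := by
    rw [div_le_iff₀ hb] at h3
    nlinarith
  calc A * (L : ℝ) ^ k * Real.exp (-(b * (L : ℝ) ^ g)) ≤ Real.exp y * Real.exp (-(b * (L : ℝ) ^ g)) :=
        mul_le_mul_of_nonneg_right h5 (Real.exp_pos _).le
    _ = Real.exp (y - b * y ^ 2) := by rw [← Real.exp_add, e1]; congr 1
    _ ≤ Real.exp (-y) := Real.exp_le_exp.2 (by linarith)

variable {μ : Measure ℝ} [IsProbabilityMeasure μ] {c C : ℝ} {n₀ : ℕ}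

/-- One start, one displacement. -/
theorem pbox_one (h : In μ c C n₀) (hF : HF2 μ) {ε : ℝ} (hε : 0 < ε) : ∃ δ A k b g : ℝ, 0 < δ ∧ 0 < b ∧ 0 < g ∧
    ∃ L₀ : ℕ, ∀ L : ℕ, L₀ ≤ L → ∀ (a : Pt) (n : ℕ), n ≤ L → ∀ y : ℤ, 0 ≤ y → y ≤ n →
      (law μ).real {η | ¬ (W μ 0 η a n y ≤ Real.exp ((L : ℝ) ^ ε * EE' μ n) ∧ Real.exp (-(L : ℝ) ^ (2 : ℕ)) ≤ W μ 0 η a n y ∧
        (|2 * (y : ℝ) - n| ≤ 2 * ((L : ℝ) ^ δ * wd' μ n) → Real.exp (-((L : ℝ) ^ ε * EE' μ n)) ≤ W μ 0 η a n y))} ≤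
        A * (L : ℝ) ^ k * Real.exp (-(b * (L : ℝ) ^ g)) := by
  obtain ⟨A, K, κ, b, γ, hA, hK, hκ, hb, hγ, hγ1, hbt⟩ := both_tails h hF
  obtain ⟨C₁, hC₁, htriv⟩ := Pool.Agent.W_7d29a1_h10.triv h.em
  obtain ⟨n₂, hw⟩ := (tendsto_atTop.1 (wd_tendsto h) 1).exists_forall_of_atTop
  obtain ⟨δ, hδ⟩ : ∃ δ : ℝ, δ = ε / (2 * (κ + 1)) := ⟨_, rfl⟩
  have hδ0 : 0 < δ := by rw [hδ]; positivity
  have hδ1 : (κ + 1) * δ = ε / 2 := by rw [hδ]; field_simp
  have hδε : δ ≤ ε := by nlinarith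
  obtain ⟨g, hg⟩ : ∃ g : ℝ, g = min (δ * γ) (min (ε / 2) 1) := ⟨_, rfl⟩
  have hg0 : 0 < g := by rw [hg]; positivity
  have hg1 : g ≤ δ * γ := by rw [hg]; exact min_le_left _ _
  have hg2 : g ≤ ε / 2 := by rw [hg]; exact (min_le_right _ _).trans (min_le_left _ _)
  have hg3 : g ≤ 1 := by rw [hg]; exact (min_le_right _ _).trans (min_le_right _ _)
  obtain ⟨b', hb'⟩ : ∃ b' : ℝ, b' = min b (1 / 2) := ⟨_, rfl⟩
  have hb'0 : 0 < b' := by rw [hb']; exact lt_min hb (by norm_num)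
  have hb'1 : b' ≤ b := by rw [hb']; exact min_le_left _ _
  have hb'2 : b' ≤ 1 / 2 := by rw [hb']; exact min_le_right _ _
  -- large L
  have ev1 : ∀ᶠ L : ℕ in atTop, K + C₁ * n₂ + 1 ≤ (L : ℝ) ^ (ε / 2) :=
    ((tendsto_rpow_atTop (by positivity : 0 < ε / 2)).comp tendsto_natCast_atTop_atTop).eventually_ge_atTop _
  have ev2 : ∀ᶠ L : ℕ in atTop, C₁ + 1 ≤ (L : ℝ) := tendsto_natCast_atTop_atTop.eventually_ge_atTop _
  obtain ⟨L₀, hL₀⟩ := eventually_atTop.1 (ev1.and ev2)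
  refine ⟨δ, 2 * A + 2, κ * δ, b', g, hδ0, hb'0, hg0, max L₀ 1, fun L hL a n hn y h0 h1 => ?_⟩
  obtain ⟨k1, k2⟩ := hL₀ L ((le_max_left _ _).trans hL)
  have hL1 : 1 ≤ L := (le_max_right _ _).trans hL
  have hLR : (1 : ℝ) ≤ L := by exact_mod_cast hL1
  have hL0 : (0 : ℝ) < L := by linarith
  have hLδ : 1 ≤ (L : ℝ) ^ δ := Real.one_le_rpow hLR hδ0.le
  have hLε2 : 1 ≤ (L : ℝ) ^ (ε / 2) := Real.one_le_rpow hLR (by positivity)
  have hLε : 1 ≤ (L : ℝ) ^ ε := Real.one_le_rpow hLR hε.le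
  have hLκ : 1 ≤ (L : ℝ) ^ (κ * δ) := Real.one_le_rpow hLR (by positivity)
  have eε : (L : ℝ) ^ ε = (L : ℝ) ^ (ε / 2) * (L : ℝ) ^ (ε / 2) := by
    rw [← Real.rpow_add hL0]
    congr 1
    ring
  -- the basic exponential
  set ex : ℝ := Real.exp (-(b' * (L : ℝ) ^ g)) with hex
  have hex0 : 0 < ex := Real.exp_pos _
  have hexp : ∀ u : ℝ, (L : ℝ) ^ g ≤ u → Real.exp (-(b * u)) ≤ ex := by
    intro u hu
    refine Real.exp_le_exp.2 (neg_le_neg ?_)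
    have h2 : 0 ≤ (L : ℝ) ^ g := Real.rpow_nonneg hL0.le _
    exact mul_le_mul hb'1 hu h2 hb.le
  have hexp2 : ∀ u : ℝ, (L : ℝ) ^ g ≤ u → Real.exp (-(1 / 2 * u)) ≤ ex := by
    intro u hu
    refine Real.exp_le_exp.2 (neg_le_neg ?_)
    have h2 : 0 ≤ (L : ℝ) ^ g := Real.rpow_nonneg hL0.le _
    exact mul_le_mul hb'2 hu h2 (by norm_num)
  have htot : 0 ≤ (2 * A + 2) * (L : ℝ) ^ (κ * δ) * ex := by positivity
  rcases Nat.eq_zero_or_pos n with hn0 | hnpos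
  · -- time zero
    have hy : y = 0 := by
      rw [hn0] at h1
      have : y ≤ 0 := by exact_mod_cast h1
      omega
    have hW : ∀ η : Env, W μ 0 η a n y = 1 := by
      intro η
      rw [hn0, hy]
      simp [W, WR, Zr]
    have hE : (0 : ℝ) ≤ EE' μ n := le_trans zero_le_one (le_max_left _ _)
    have he : {η : Env | ¬ (W μ 0 η a n y ≤ Real.exp ((L : ℝ) ^ ε * EE' μ n) ∧ Real.exp (-(L : ℝ) ^ (2 : ℕ)) ≤ W μ 0 η a n y ∧
        (|2 * (y : ℝ) - n| ≤ 2 * ((L : ℝ) ^ δ * wd' μ n) → Real.exp (-((L : ℝ) ^ ε * EE' μ n)) ≤ W μ 0 η a n y))} = ∅ := by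
      ext η
      simp only [Set.mem_ofPred_eq, Set.mem_empty_iff_false, iff_false, not_not]
      rw [hW η]
      refine ⟨?_, ?_, fun _ => ?_⟩
      · exact Real.one_le_exp (by positivity)
      · rw [Real.exp_le_one_iff]
        have : (0 : ℝ) ≤ (L : ℝ) ^ (2 : ℕ) := by positivity
        linarith
      · rw [Real.exp_le_one_iff]
        have : 0 ≤ (L : ℝ) ^ ε * EE' μ n := by positivity
        linarith
    rw [he]
    simpa using htot
  have hn1 : 1 ≤ n := hnpos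
  have hE1 := one_le_EE (μ := μ) n
  have hEE : EE' μ n = EE μ n := max_eq_right hE1
  -- the three events
  have hsub : {η : Env | ¬ (W μ 0 η a n y ≤ Real.exp ((L : ℝ) ^ ε * EE' μ n) ∧ Real.exp (-(L : ℝ) ^ (2 : ℕ)) ≤ W μ 0 η a n y ∧
        (|2 * (y : ℝ) - n| ≤ 2 * ((L : ℝ) ^ δ * wd' μ n) → Real.exp (-((L : ℝ) ^ ε * EE' μ n)) ≤ W μ 0 η a n y))} ⊆
      ({η : Env | Real.exp ((L : ℝ) ^ ε * EE μ n) ≤ Real.exp (V μ 0 η a n)} ∪
        {η : Env | (L : ℝ) ^ (2 : ℕ) * 1 ≤ X μ 0 η a n y}) ∪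
      {η : Env | |2 * (y : ℝ) - n| ≤ 2 * ((L : ℝ) ^ δ * wd' μ n) ∧ W μ 0 η a n y < Real.exp (-((L : ℝ) ^ ε * EE' μ n))} := by
    intro η hη
    rw [Set.mem_ofPred_eq] at hη
    by_contra hcon
    rw [Set.mem_union, Set.mem_union, not_or, not_or] at hcon
    obtain ⟨⟨c1, c2⟩, c3⟩ := hcon
    rw [Set.mem_ofPred_eq, not_le] at c1 c2
    rw [Set.mem_ofPred_eq] at c3
    refine hη ⟨?_, ?_, fun hc => ?_⟩
    · rw [hEE]
      exact (W_le_exp_V η a n y).trans c1.le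
    · unfold X at c2
      rw [mul_one] at c2
      have hWp := W_pos (μ := μ) (s := 0) η a h0 h1
      have : -(L : ℝ) ^ (2 : ℕ) ≤ Real.log (W μ 0 η a n y) := by linarith
      exact (Real.le_log_iff_exp_le hWp).1 this
    · by_contra hc'
      exact c3 ⟨hc, not_le.1 hc'⟩
  -- bounds of the three events
  have p1 : (law μ).real {η : Env | Real.exp ((L : ℝ) ^ ε * EE μ n) ≤ Real.exp (V μ 0 η a n)} ≤ A * ex := by
    refine ((hbt n hn1 1 le_rfl ((L : ℝ) ^ ε) hLε).2 a).trans ?_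
    rw [Real.one_rpow, mul_one]
    refine mul_le_mul_of_nonneg_left (hexp _ ?_) hA.le
    rw [← Real.rpow_mul hL0.le]
    refine Real.rpow_le_rpow_of_exponent_le hLR (hg1.trans ?_)
    exact mul_le_mul_of_nonneg_right hδε hγ.le
  have p2 : (law μ).real {η : Env | (L : ℝ) ^ (2 : ℕ) * 1 ≤ X μ 0 η a n y} ≤ ex := by
    rw [Pool.Agent.W_7d29a1_h10.tail_sh]
    refine (htriv n y ((L : ℝ) ^ (2 : ℕ)) 1 h0 h1 le_rfl ?_).trans (hexp2 _ ?_)
    · have : (n : ℝ) ≤ L := by exact_mod_cast hn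
      calc C₁ * (n : ℝ) ≤ L * L := mul_le_mul (by linarith) this (Nat.cast_nonneg _) hL0.le
        _ = (L : ℝ) ^ (2 : ℕ) := by ring
    · calc (L : ℝ) ^ g ≤ (L : ℝ) ^ (1 : ℝ) := Real.rpow_le_rpow_of_exponent_le hLR hg3
        _ = L := Real.rpow_one _
        _ ≤ (L : ℝ) ^ (2 : ℕ) := le_self_pow₀ hLR two_ne_zero
  have p3 : (law μ).real {η : Env | |2 * (y : ℝ) - n| ≤ 2 * ((L : ℝ) ^ δ * wd' μ n) ∧
      W μ 0 η a n y < Real.exp (-((L : ℝ) ^ ε * EE' μ n))} ≤ (A + 1) * (L : ℝ) ^ (κ * δ) * ex := by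
    by_cases hc : |2 * (y : ℝ) - n| ≤ 2 * ((L : ℝ) ^ δ * wd' μ n)
    swap
    · have he : {η : Env | |2 * (y : ℝ) - n| ≤ 2 * ((L : ℝ) ^ δ * wd' μ n) ∧
          W μ 0 η a n y < Real.exp (-((L : ℝ) ^ ε * EE' μ n))} = ∅ := by
        ext η
        simp only [Set.mem_ofPred_eq, Set.mem_empty_iff_false, iff_false, not_and]
        exact fun h => absurd h hc
      rw [he]
      have : 0 ≤ (A + 1) * (L : ℝ) ^ (κ * δ) * ex := by positivity
      simpa using this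
    by_cases hn2 : n₂ ≤ n
    · -- large scales
      have hwn := hw n hn2
      have hwd : wd' μ n = wd μ n := max_eq_right hwn
      have hy' : |(y : ℝ) - n / 2| ≤ (L : ℝ) ^ δ * wd μ n + 1 := by
        rw [hwd] at hc
        have e1 : 2 * (y : ℝ) - n = 2 * ((y : ℝ) - n / 2) := by ring
        rw [e1, abs_mul, abs_of_pos (by norm_num : (0 : ℝ) < 2)] at hc
        linarith
      have h2 := (hbt n hn1 ((L : ℝ) ^ δ) hLδ ((L : ℝ) ^ δ) hLδ).1 a y h0 h1 hy'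
      have hle : K * ((L : ℝ) ^ δ) ^ κ * (L : ℝ) ^ δ * EE μ n ≤ (L : ℝ) ^ ε * EE' μ n := by
        rw [hEE]
        refine mul_le_mul_of_nonneg_right ?_ (by linarith)
        have e1 : ((L : ℝ) ^ δ) ^ κ * (L : ℝ) ^ δ = (L : ℝ) ^ (ε / 2) := by
          rw [← Real.rpow_mul hL0.le, ← Real.rpow_add hL0]
          congr 1
          rw [← hδ1]
          ring
        rw [mul_assoc, e1, eε]
        refine mul_le_mul_of_nonneg_right ?_ (by linarith)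
        have : 0 ≤ C₁ * n₂ := by positivity
        linarith
      refine (measureReal_mono (fun η hη => ?_) (measure_ne_top _ _)).trans (h2.trans ?_)
      · rw [Set.mem_ofPred_eq] at hη ⊢
        exact hη.2.le.trans (Real.exp_le_exp.2 (neg_le_neg hle))
      · have e1 : ((L : ℝ) ^ δ) ^ κ = (L : ℝ) ^ (κ * δ) := by
          rw [← Real.rpow_mul hL0.le]
          congr 1
          ring
        rw [e1]
        refine mul_le_mul (mul_le_mul_of_nonneg_right (by linarith) (by positivity)) (hexp _ ?_) (Real.exp_pos _).le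
          (by positivity)
        rw [← Real.rpow_mul hL0.le]
        exact Real.rpow_le_rpow_of_exponent_le hLR hg1
    · -- small scales
      push Not at hn2
      have hnn : (n : ℝ) ≤ n₂ := by exact_mod_cast hn2.le
      have h2 := htriv n y ((L : ℝ) ^ (ε / 2)) (EE μ n) h0 h1 hE1 (by
        have : C₁ * n ≤ C₁ * n₂ := mul_le_mul_of_nonneg_left hnn hC₁.le
        linarith)
      refine (measureReal_mono (?_ : _ ⊆ {η : Env | (L : ℝ) ^ (ε / 2) * EE μ n ≤ X μ 0 η a n y}) (measure_ne_top _ _)).trans ?_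
      · intro η hη
        rw [Set.mem_ofPred_eq] at hη ⊢
        unfold X
        have h3 := Real.log_le_log (W_pos η a h0 h1) hη.2.le
        rw [Real.log_exp, hEE] at h3
        have h4 : (L : ℝ) ^ (ε / 2) * EE μ n ≤ (L : ℝ) ^ ε * EE μ n := by
          rw [eε]
          refine mul_le_mul_of_nonneg_right ?_ (by linarith)
          exact le_mul_of_one_le_left (by linarith) hLε2
        linarith
      · rw [Pool.Agent.W_7d29a1_h10.tail_sh]
        refine h2.trans ((hexp2 _ ?_).trans ?_)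
        · exact Real.rpow_le_rpow_of_exponent_le hLR hg2
        · have : 1 ≤ (A + 1) * (L : ℝ) ^ (κ * δ) := one_le_mul_of_one_le_of_one_le (by linarith) hLκ
          exact le_mul_of_one_le_left hex0.le this
  refine (measureReal_mono hsub (measure_ne_top _ _)).trans ((measureReal_union_le _ _).trans ?_)
  have h3 := measureReal_union_le (μ := law μ) {η : Env | Real.exp ((L : ℝ) ^ ε * EE μ n) ≤ Real.exp (V μ 0 η a n)}
    {η : Env | (L : ℝ) ^ (2 : ℕ) * 1 ≤ X μ 0 η a n y}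
  have h4 : A * ex + ex ≤ (A + 1) * (L : ℝ) ^ (κ * δ) * ex := by
    have : (A + 1) * ex ≤ (A + 1) * (L : ℝ) ^ (κ * δ) * ex := by
      refine mul_le_mul_of_nonneg_right ?_ hex0.le
      exact le_mul_of_one_le_right (by linarith) hLκ
    linarith
  linarith

/-- **The point to point weights of a box.** -/
theorem pbox22 (h : In μ c C n₀) (hF : HF2 μ) : ∀ ε : ℝ, 0 < ε → ∃ δ c' : ℝ, 0 < δ ∧ 0 < c' ∧ ∃ L₀ : ℕ, ∀ L : ℕ, L₀ ≤ L →
    law μ {η | ¬ ∀ i n : ℕ, i + n ≤ L → ∀ x : ℤ, |x| ≤ 2 * L → ∀ y : ℤ, 0 ≤ y → y ≤ n →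
      W μ 0 η ((i : ℤ), x) n y ≤ Real.exp ((L : ℝ) ^ ε * EE' μ n) ∧ Real.exp (-(L : ℝ) ^ (2 : ℕ)) ≤ W μ 0 η ((i : ℤ), x) n y ∧
      (|2 * (y : ℝ) - n| ≤ 2 * ((L : ℝ) ^ δ * wd' μ n) → Real.exp (-((L : ℝ) ^ ε * EE' μ n)) ≤ W μ 0 η ((i : ℤ), x) n y)} ≤
      ENNReal.ofReal (Real.exp (-(L : ℝ) ^ c')) := by
  intro ε hε
  obtain ⟨δ, A, k, b, g, hδ, hb, hg, L₀, hone⟩ := pbox_one h hF hε
  obtain ⟨L₁, hL₁⟩ := eventually_atTop.1 (absorb (40 * A) (k + 4) hb hg)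
  refine ⟨δ, g / 2, hδ, by positivity, max (max L₀ L₁) 1, fun L hL => ?_⟩
  have hLa : L₀ ≤ L := (le_max_left _ _).trans ((le_max_left _ _).trans hL)
  have hLb : L₁ ≤ L := (le_max_right _ _).trans ((le_max_left _ _).trans hL)
  have hL1 : 1 ≤ L := (le_max_right _ _).trans hL
  have hLR : (1 : ℝ) ≤ L := by exact_mod_cast hL1
  have hL0 : (0 : ℝ) < L := by linarith
  set p : ℝ := A * (L : ℝ) ^ k * Real.exp (-(b * (L : ℝ) ^ g)) with hp
  have hp0 : 0 ≤ p := by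
    have := hone L hLa 0 0 (Nat.zero_le _) 0 le_rfl (by simp)
    exact measureReal_nonneg.trans this
  -- the union
  let Bad : ℕ → ℕ → ℤ → ℤ → Set Env := fun i n x y => {η | ¬ (W μ 0 η ((i : ℤ), x) n y ≤ Real.exp ((L : ℝ) ^ ε * EE' μ n) ∧
      Real.exp (-(L : ℝ) ^ (2 : ℕ)) ≤ W μ 0 η ((i : ℤ), x) n y ∧
      (|2 * (y : ℝ) - n| ≤ 2 * ((L : ℝ) ^ δ * wd' μ n) → Real.exp (-((L : ℝ) ^ ε * EE' μ n)) ≤ W μ 0 η ((i : ℤ), x) n y))}
  have hsub : {η | ¬ ∀ i n : ℕ, i + n ≤ L → ∀ x : ℤ, |x| ≤ 2 * L → ∀ y : ℤ, 0 ≤ y → y ≤ n →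
      W μ 0 η ((i : ℤ), x) n y ≤ Real.exp ((L : ℝ) ^ ε * EE' μ n) ∧ Real.exp (-(L : ℝ) ^ (2 : ℕ)) ≤ W μ 0 η ((i : ℤ), x) n y ∧
      (|2 * (y : ℝ) - n| ≤ 2 * ((L : ℝ) ^ δ * wd' μ n) → Real.exp (-((L : ℝ) ^ ε * EE' μ n)) ≤ W μ 0 η ((i : ℤ), x) n y)} ⊆
      ⋃ i ∈ Finset.range (L + 1), ⋃ n ∈ Finset.range (L + 1), ⋃ x ∈ Finset.Icc (-(2 * L : ℤ)) (2 * L),
        ⋃ y ∈ Finset.Icc (0 : ℤ) n, Bad i n x y := by
    intro η hη
    rw [Set.mem_ofPred_eq] at hη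
    push Not at hη
    obtain ⟨i, n, hin, x, hx, y, h0, h1, hbad⟩ := hη
    simp only [Set.mem_iUnion]
    refine ⟨i, Finset.mem_range.2 (by omega), n, Finset.mem_range.2 (by omega), x, Finset.mem_Icc.2 (abs_le.1 hx), y,
      Finset.mem_Icc.2 ⟨h0, h1⟩, ?_⟩
    show ¬ _
    intro hgood
    obtain ⟨g1, g2, g3⟩ := hgood
    obtain ⟨g4, g5⟩ := hbad g1 g2
    exact absurd (g3 g4) (not_le.2 g5)
  have hreal : (law μ).real {η | ¬ ∀ i n : ℕ, i + n ≤ L → ∀ x : ℤ, |x| ≤ 2 * L → ∀ y : ℤ, 0 ≤ y → y ≤ n →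
      W μ 0 η ((i : ℤ), x) n y ≤ Real.exp ((L : ℝ) ^ ε * EE' μ n) ∧ Real.exp (-(L : ℝ) ^ (2 : ℕ)) ≤ W μ 0 η ((i : ℤ), x) n y ∧
      (|2 * (y : ℝ) - n| ≤ 2 * ((L : ℝ) ^ δ * wd' μ n) → Real.exp (-((L : ℝ) ^ ε * EE' μ n)) ≤ W μ 0 η ((i : ℤ), x) n y)} ≤
      Real.exp (-(L : ℝ) ^ (g / 2)) := by
    refine (measureReal_mono hsub (measure_ne_top _ _)).trans ?_
    have s1 : ∀ i n : ℕ, ∀ x : ℤ, n ≤ L → (law μ).real (⋃ y ∈ Finset.Icc (0 : ℤ) n, Bad i n x y) ≤ (L + 1) * p := by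
      intro i n x hnL
      refine (measureReal_biUnion_finset_le _ _).trans ?_
      refine (Finset.sum_le_card_nsmul _ _ p fun y hy => ?_).trans ?_
      · rw [Finset.mem_Icc] at hy
        exact hone L hLa ((i : ℤ), x) n hnL y hy.1 hy.2
      · rw [nsmul_eq_mul, Int.card_Icc]
        refine mul_le_mul_of_nonneg_right ?_ hp0
        have : (((n : ℤ) + 1 - 0).toNat : ℝ) = n + 1 := by
          have e : ((n : ℤ) + 1 - 0).toNat = n + 1 := by omega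
          rw [e]
          push_cast
          ring
        rw [this]
        have : (n : ℝ) ≤ L := by exact_mod_cast hnL
        linarith
    have s2 : ∀ i n : ℕ, n ≤ L → (law μ).real (⋃ x ∈ Finset.Icc (-(2 * L : ℤ)) (2 * L), ⋃ y ∈ Finset.Icc (0 : ℤ) n, Bad i n x y) ≤
        (4 * L + 1) * ((L + 1) * p) := by
      intro i n hnL
      refine (measureReal_biUnion_finset_le _ _).trans ?_
      refine (Finset.sum_le_card_nsmul _ _ ((L + 1) * p) fun x _ => s1 i n x hnL).trans ?_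
      rw [nsmul_eq_mul, Int.card_Icc]
      refine mul_le_mul_of_nonneg_right (le_of_eq ?_) (by positivity)
      have e : ((2 * L : ℤ) + 1 - -(2 * L : ℤ)).toNat = 4 * L + 1 := by omega
      rw [e]
      push_cast
      ring
    have s3 : ∀ i : ℕ, (law μ).real (⋃ n ∈ Finset.range (L + 1), ⋃ x ∈ Finset.Icc (-(2 * L : ℤ)) (2 * L),
        ⋃ y ∈ Finset.Icc (0 : ℤ) n, Bad i n x y) ≤ (L + 1) * ((4 * L + 1) * ((L + 1) * p)) := by
      intro i
      refine (measureReal_biUnion_finset_le _ _).trans ?_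
      refine (Finset.sum_le_card_nsmul _ _ ((4 * L + 1) * ((L + 1) * p)) fun n hn => s2 i n ?_).trans ?_
      · rw [Finset.mem_range] at hn
        omega
      · rw [nsmul_eq_mul, Finset.card_range]
        push_cast
        exact le_rfl
    refine (measureReal_biUnion_finset_le _ _).trans ?_
    refine (Finset.sum_le_card_nsmul _ _ ((L + 1) * ((4 * L + 1) * ((L + 1) * p))) fun i _ => s3 i).trans ?_
    rw [nsmul_eq_mul, Finset.card_range]
    push_cast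
    refine le_trans ?_ (hL₁ L hLb)
    have e1 : 40 * A * (L : ℝ) ^ (k + 4) * Real.exp (-(b * (L : ℝ) ^ g)) = 40 * (L : ℝ) ^ (4 : ℕ) * p := by
      rw [hp, Real.rpow_add hL0]
      have : (L : ℝ) ^ (4 : ℝ) = (L : ℝ) ^ (4 : ℕ) := by
        rw [← Real.rpow_natCast]
        norm_num
      rw [this]
      ring
    rw [e1]
    have e2 : ((L : ℝ) + 1) * (((L : ℝ) + 1) * ((4 * L + 1) * ((L + 1) * p))) =
        (((L : ℝ) + 1) * (((L : ℝ) + 1) * ((4 * L + 1) * (L + 1)))) * p := by ring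
    rw [e2]
    refine mul_le_mul_of_nonneg_right ?_ hp0
    have a1 : (L : ℝ) + 1 ≤ 2 * L := by linarith
    have a2 : 4 * (L : ℝ) + 1 ≤ 5 * L := by linarith
    calc ((L : ℝ) + 1) * (((L : ℝ) + 1) * ((4 * L + 1) * (L + 1))) ≤ (2 * L) * ((2 * L) * ((5 * L) * (2 * L))) := by
          gcongr
      _ = 40 * (L : ℝ) ^ (4 : ℕ) := by ring
  calc law μ _ = ENNReal.ofReal ((law μ).real _) := (ENNReal.ofReal_toReal (measure_ne_top _ _)).symm
    _ ≤ _ := ENNReal.ofReal_le_ofReal hreal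

end Pool.Agent.W_7d29a1_Z22
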