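import Pool.Agent.W_7d29a1_Z22.ChoZ
import Pool.Agent.W_7d29a1_Z22.JenZ
import Pool.Agent.W_7d29a1_Z22.RC

/-!
STORM Z, STP: (RC) for the kernels of the scale `R`, in the names of `Defs.lean`. A kernel is `e = (u, u', y)`: from `(u, 0)` to
`(u', y)`; it crosses all the zones `b < n l` of length `t`, which start at `τ`. (helper22)
-/

namespace Pool.Agent.W_7d29a1_Z22

open MeasureTheory Finset
open Pool.Agent.W_7d29a1_F Pool.Agent.W_7d29a1_X Pool.Agent.W_7d29a1_Z Pool.Agent.W_7d29a1_Z.A12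

noncomputable section

variable {μ : Measure ℝ}

/-- A kernel: from `(u, 0)` to `(u', y)`. -/
abbrev Ker := ℕ × ℕ × ℤ

/-- The duration of the kernel. -/
def eN (e : Ker) : ℕ := e.2.1 - e.1

/-- The environment seen from the start of the kernel. -/
def sE (e : Ker) (w : Env) : Env := sh ((e.1 : ℤ), 0) w

/-- The paths of the kernel. -/
def SS (e : Ker) : Finset (Finset ℕ) := (range (eN e)).powerset.filter fun S => pos S (eN e) = e.2.2

/-- The path is in the cone in all the zones. -/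
def Cn (t τ B : ℕ) (cw : ℝ) (S : Finset ℕ) : Prop :=
  ∀ b < B, |2 * ((pos S (zb t τ b) : ℝ) - pos S (za t τ b)) - t| ≤ 2 * cw

/-- The typical paths of the kernel. -/
def TT (t τ B : ℕ) (cw : ℝ) (e : Ker) : Finset (Finset ℕ) := by
  classical
  exact (SS e).filter fun S => Cn t (τ - e.1) B cw S

theorem mem_SS {e : Ker} {S : Finset ℕ} : S ∈ SS e ↔ S ⊆ range (eN e) ∧ pos S (eN e) = e.2.2 := by
  unfold SS
  rw [mem_filter, mem_powerset]

theorem mem_TT {t τ B : ℕ} {cw : ℝ} {e : Ker} {S : Finset ℕ} : S ∈ TT t τ B cw e ↔ S ∈ SS e ∧ Cn t (τ - e.1) B cw S := by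
  classical
  unfold TT
  rw [mem_filter]

theorem TT_sub {t τ B : ℕ} {cw : ℝ} {e : Ker} : TT t τ B cw e ⊆ SS e := fun _ h => (mem_TT.1 h).1

/-- The weights. -/
def pE (μ : Measure ℝ) (e : Ker) (w : Env) (S : Finset ℕ) : ℝ := gp μ (sE e w) (eN e) e.2.2 S

/-- The response of the zone `(j, i)` to the amplitude `a`. -/
def rE (μ : Measure ℝ) {n l : ℕ} (t τ : ℕ) (I : Finset ℕ) (a : ℤ) (e : Ker) (w : Env) (j : Fin n) (i : Fin l) (S : Finset ℕ) : ℝ :=
  fb μ t (τ - e.1) I (sE e w) (i + l * j) a (pos S) - fb μ t (τ - e.1) I (sE e w) (i + l * j) 0 (pos S)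

theorem sum_SS (e : Ker) (w : Env) (h0 : 0 ≤ e.2.2) (h1 : e.2.2 ≤ eN e) : ∑ S ∈ SS e, pE μ e w S = 1 := by
  unfold SS
  rw [sum_filter]
  rw [← sum_gp (μ := μ) (sE e w) h0 h1]
  refine sum_congr rfl fun S _ => ?_
  by_cases h : pos S (eN e) = e.2.2
  · rw [if_pos h]
    rfl
  · rw [if_neg h]
    unfold gp
    rw [if_neg h]

theorem pE_nonneg (e : Ker) (w : Env) (S : Finset ℕ) : 0 ≤ pE μ e w S := gp_nonneg _ _ _ _

/-- The state of the kernel `e` in the environment `w` which is needed. -/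
structure Okay (μ : Measure ℝ) (t τ : ℕ) (I : Finset ℕ) (B : ℕ) (cw A η lam U : ℝ) (e : Ker) (w : Env) : Prop where
  ns : ∑ S ∈ (SS e).filter (fun S => S ∉ TT t τ B cw e), pE μ e w S ≤ η
  ra : ∀ S ∈ TT t τ B cw e, ∀ b < B, |fb μ t (τ - e.1) I (sE e w) b 1 (pos S) - fb μ t (τ - e.1) I (sE e w) b 0 (pos S)| ≤ A ∧
    |fb μ t (τ - e.1) I (sE e w) b (-1) (pos S) - fb μ t (τ - e.1) I (sE e w) b 0 (pos S)| ≤ A
  inn : ∑ S ∈ (TT t τ B cw e).filter (fun S => lam < |∑ b ∈ range B, Db μ t (τ - e.1) I 1 (sE e w) b 0 (pos S)|), pE μ e w S ≤ η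
  top : fk μ (pat t (τ - e.1) I (full 1 B)) (sE e w) 0 (eN e) 0 e.2.2 - fk μ 0 (sE e w) 0 (eN e) 0 e.2.2 ≤ U
  tom : fk μ (pat t (τ - e.1) I (full (-1) B)) (sE e w) 0 (eN e) 0 e.2.2 - fk μ 0 (sE e w) 0 (eN e) 0 e.2.2 ≤ U

variable {t τ n l : ℕ} {I : Finset ℕ} {cw A η lam U : ℝ} {e : Ker} {w : Env}

theorem Okay.sum_TT {B : ℕ} (h : Okay μ t τ I B cw A η lam U e w) (h0 : 0 ≤ e.2.2) (h1 : e.2.2 ≤ eN e) :
    1 - η ≤ ∑ S ∈ TT t τ B cw e, pE μ e w S := by
  classical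
  have e1 := sum_filter_add_sum_filter_not (SS e) (fun S => S ∈ TT t τ B cw e) (pE μ e w)
  have e2 : (SS e).filter (fun S => S ∈ TT t τ B cw e) = TT t τ B cw e := by
    rw [filter_mem_eq_inter, inter_eq_right.2 TT_sub]
  rw [e2, sum_SS e w h0 h1] at e1
  have e3 := h.ns
  linarith

theorem Okay.nonempty {B : ℕ} (h : Okay μ t τ I B cw A η lam U e w) (h0 : 0 ≤ e.2.2) (h1 : e.2.2 ≤ eN e) (hη : η < 1) :
    (TT t τ B cw e).Nonempty := by
  by_contra hcon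
  rw [not_nonempty_iff_eq_empty] at hcon
  have := h.sum_TT h0 h1
  rw [hcon, sum_empty] at this
  linarith

/-- The gain of a choice of amplitudes. -/
theorem gain_le_of (B : ℕ) (ht : 0 < t) (hI : I ⊆ range t) (hcw : 2 * cw + 2 * (I.card : ℝ) ≤ t) (hN : τ - e.1 + 2 * t * B ≤ eN e)
    (h0 : 0 ≤ e.2.2) (h1 : e.2.2 ≤ eN e) (hne : (TT t τ B cw e).Nonempty) {V : ℕ → ℤ} (hV : ∀ b, B ≤ b → V b = 0)
    (hV1 : ∀ b, |V b| ≤ 1) {r : Finset ℕ → ℝ}
    (hr : ∀ S, r S = ∑ b ∈ range B, (fb μ t (τ - e.1) I (sE e w) b (V b) (pos S) - fb μ t (τ - e.1) I (sE e w) b 0 (pos S))) :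
    Real.log (∑ S ∈ TT t τ B cw e, pE μ e w S * Real.exp (r S)) - Real.log (∑ S ∈ SS e, pE μ e w S) ≤
      fk μ (pat t (τ - e.1) I V) (sE e w) 0 (eN e) 0 e.2.2 - fk μ 0 (sE e w) 0 (eN e) 0 e.2.2 := by
  rw [sum_SS e w h0 h1, Real.log_one, sub_zero]
  have key := fk_jen (μ := μ) (N := eN e) (y := e.2.2) h0 h1 (t := t) (τ := τ - e.1) (B := B) ht hI hV
    (fun b hb => by
      unfold zb
      have h2 : 2 * t * (b + 1) ≤ 2 * t * B := Nat.mul_le_mul_left _ hb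
      have h3 : 2 * t * (b + 1) = 2 * t * b + 2 * t := by ring
      omega) (sE e w) (TT t τ B cw e) hne
    (fun S hS => mem_SS.1 (mem_TT.1 hS).1)
    (fun S hS b hb => zone_pos_of_cone ((mem_TT.1 hS).2 b hb) (by
      have h4 : |((V b : ℤ) : ℝ)| ≤ 1 := by
        have := hV1 b
        rw [← Int.cast_abs]
        exact_mod_cast this
      have h5 : (I.card : ℝ) * |((V b : ℤ) : ℝ)| ≤ I.card := mul_le_of_le_one_right (Nat.cast_nonneg _) h4
      linarith))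
  simp only [hr]
  exact key

theorem abs_cho_le (a : ℤ) (ha : |a| ≤ 1) (β : Fin n → Fin l) (b : ℕ) : |cho a β b| ≤ 1 := by
  rcases cho_values a β b with h | h
  · rw [h]
    exact ha
  · rw [h, abs_zero]
    exact zero_le_one

theorem abs_full_le (a : ℤ) (ha : |a| ≤ 1) (B b : ℕ) : |full a B b| ≤ 1 := by
  unfold full
  split_ifs
  · exact ha
  · rw [abs_zero]
    exact zero_le_one

/-- **The state `Fine` of the kernel.** -/
theorem Okay.fine (h : Okay μ t τ I (n * l) cw A η lam U e w) (ht : 0 < t) (hI : I ⊆ range t)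
    (hcw : 2 * cw + 2 * (I.card : ℝ) ≤ t) (hN : τ - e.1 + 2 * t * (n * l) ≤ eN e) (h0 : 0 ≤ e.2.2) (h1 : e.2.2 ≤ eN e)
    (hη : η ≤ 1 / 4) :
    Fine n l A η lam U (SS e) (TT t τ (n * l) cw e) (pE μ e w) (rE μ t τ I 1 e w) (rE μ t τ I (-1) e w) := by
  classical
  have hne := h.nonempty h0 h1 (by linarith)
  have hblk : ∀ (j : Fin n) (i : Fin l), (i : ℕ) + l * j < n * l := by
    intro j i
    have h2 : (j : ℕ) + 1 ≤ n := j.2
    have h3 := Nat.mul_le_mul_left l h2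
    have h4 : l * ((j : ℕ) + 1) = l * j + l := by ring
    have h5 : l * n = n * l := Nat.mul_comm _ _
    have h6 := i.2
    omega
  have hgd : gd n l A (TT t τ (n * l) cw e) (rE μ t τ I 1 e w) (rE μ t τ I (-1) e w) = TT t τ (n * l) cw e := by
    refine Finset.Subset.antisymm gd_subset fun S hS => ?_
    rw [mem_gd]
    exact ⟨hS, fun j i => h.ra S hS _ (hblk j i)⟩
  refine ⟨fun S _ => pE_nonneg e w S, ?_, ?_, ?_, ?_, ?_⟩
  · rw [sum_SS e w h0 h1]
    exact one_pos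
  · rw [hgd, sum_SS e w h0 h1, mul_one]
    exact h.sum_TT h0 h1
  · rw [sum_SS e w h0 h1, mul_one]
    refine le_trans (le_of_eq ?_) h.inn
    refine sum_congr (filter_congr fun S _ => ?_) fun _ _ => rfl
    have e1 : ∑ j : Fin n, ∑ i : Fin l, (rE μ t τ I 1 e w j i S + rE μ t τ I (-1) e w j i S) =
        ∑ b ∈ range (n * l), Db μ t (τ - e.1) I 1 (sE e w) b 0 (pos S) := by
      rw [← sum_blocks n l fun b => Db μ t (τ - e.1) I 1 (sE e w) b 0 (pos S)]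
      refine sum_congr rfl fun j _ => sum_congr rfl fun i _ => ?_
      unfold rE Db
      rw [zero_add, zero_sub]
      ring
    rw [e1]
  · refine le_trans ?_ h.top
    refine gain_le_of (n * l) ht hI hcw hN h0 h1 hne (fun b hb => full_ge 1 hb) (abs_full_le 1 (by norm_num) (n * l)) fun S => ?_
    rw [← sum_blocks n l fun b => fb μ t (τ - e.1) I (sE e w) b (full 1 (n * l) b) (pos S) - fb μ t (τ - e.1) I (sE e w) b 0 (pos S)]
    refine sum_congr rfl fun j _ => sum_congr rfl fun i _ => ?_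
    rw [full_lt 1 (hblk j i)]
    rfl
  · refine le_trans ?_ h.tom
    refine gain_le_of (n * l) ht hI hcw hN h0 h1 hne (fun b hb => full_ge (-1) hb) (abs_full_le (-1) (by norm_num) (n * l))
      fun S => ?_
    rw [← sum_blocks n l fun b => fb μ t (τ - e.1) I (sE e w) b (full (-1) (n * l) b) (pos S) - fb μ t (τ - e.1) I (sE e w) b 0 (pos S)]
    refine sum_congr rfl fun j _ => sum_congr rfl fun i _ => ?_
    rw [full_lt (-1) (hblk j i)]
    rfl

/-- The gain of the choice `β`. -/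
theorem gain_cho (h : Okay μ t τ I (n * l) cw A η lam U e w) (ht : 0 < t) (hI : I ⊆ range t)
    (hcw : 2 * cw + 2 * (I.card : ℝ) ≤ t) (hN : τ - e.1 + 2 * t * (n * l) ≤ eN e) (h0 : 0 ≤ e.2.2) (h1 : e.2.2 ≤ eN e)
    (hη : η ≤ 1 / 4) {a : ℤ} (ha : |a| ≤ 1) (hue : e.1 ≤ e.2.1) (hu : e.1 ≤ τ) (β : Fin n → Fin l) :
    gain (SS e) (TT t τ (n * l) cw e) (pE μ e w) (rE μ t τ I a e w) β ≤
      fk μ (pat t τ I (cho a β)) w e.1 e.2.1 0 e.2.2 - fk μ 0 w e.1 e.2.1 0 e.2.2 := by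
  have hne := h.nonempty h0 h1 (by linarith)
  rw [fk_sys t τ I (cho a β) w hu hue, fk_sys_zero w hue]
  refine gain_le_of (n * l) ht hI hcw hN h0 h1 hne (fun b hb => cho_ge a β hb) (abs_cho_le a ha β) fun S => ?_
  rw [sum_cho (M := ℝ) a β (fun b v => fb μ t (τ - e.1) I (sE e w) b v (pos S) - fb μ t (τ - e.1) I (sE e w) b 0 (pos S))
    fun b => sub_self _]
  rfl

section rc

variable {α E Ω : Type*} [MeasurableSpace Ω]

/-- **(RC), two-sided**, as `rc_two`, with the hypotheses on the gains only off `N`. -/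
theorem rc_two' {n l : ℕ} {A η lam U : ℝ} (μ : Measure Ω) [IsProbabilityMeasure μ] (K K0 : Finset E) (hl : 0 < l) (hn : 0 < n)
    (S T : E → Finset α)
    (hT : ∀ e, T e ⊆ S e) (p : E → Ω → α → ℝ) (φ ψ : E → Ω → Fin n → Fin l → α → ℝ)
    (hp : ∀ e, ∀ x ∈ T e, Measurable fun w => p e w x) (hφ : ∀ e j i, ∀ x ∈ T e, Measurable fun w => φ e w j i x)
    (hψ : ∀ e j i, ∀ x ∈ T e, Measurable fun w => ψ e w j i x) {s : ℝ} (hA : 0 < A) (hη0 : 0 ≤ η) (hη : η ≤ 1 / 4)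
    (hlam : 0 ≤ lam) (hs : 0 ≤ s) (N : Set Ω) (hN : MeasurableSet N)
    (hf : ∀ w, w ∉ N → ∀ e ∈ K, Fine n l A η lam U (S e) (T e) (p e w) (φ e w) (ψ e w))
    (X : E → Ω → ℝ) (act : (Fin n → Fin l) → Ω → Ω) (sh : E → E) (hact : ∀ β, MeasurePreserving (act β) μ μ)
    (hK0 : K0 ⊆ K) (hsh : ∀ e ∈ K0, sh e ∈ K)
    (hfw : ∀ β, ∀ e ∈ K0, ∀ w, w ∉ N → gain (S e) (T e) (p e w) (φ e w) β ≤ X (sh e) (act β w) - X e w)
    (hbw : ∀ β, ∀ e ∈ K0, ∀ w, act β w ∉ N → gain (S (sh e)) (T (sh e)) (p (sh e) (act β w)) (ψ (sh e) (act β w)) β ≤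
      X e w - X (sh e) (act β w)) :
    ∃ β : Fin n → Fin l,
      μ.real {w | ∃ e ∈ K0, (U + 1 + lam + 3 * (η * (n * l * A))) / l + s + 1 < |X (sh e) (act β w) - X e w|} ≤
        6 * μ.real N + 8 * (K.card * Real.exp (-(s ^ 2 / (8 * A ^ 2 * n)))) := by
  obtain ⟨β, hβ⟩ := rc_sample μ K hl hn S T hT p φ ψ hp hφ hψ hA hη0 hη hlam hs N hN hf
  refine ⟨β, ?_⟩
  set Bad : Set Ω := {w | ∃ e ∈ K, gain (S e) (T e) (p e w) (φ e w) β <
        -((U + 1 + lam + 3 * (η * (n * l * A))) / l + s + 1) ∨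
        gain (S e) (T e) (p e w) (ψ e w) β < -((U + 1 + lam + 3 * (η * (n * l * A))) / l + s + 1)} with hBad
  have hsub : {w | ∃ e ∈ K0, (U + 1 + lam + 3 * (η * (n * l * A))) / l + s + 1 < |X (sh e) (act β w) - X e w|} ⊆
      (Bad ∪ N) ∪ (act β) ⁻¹' (Bad ∪ N) := by
    rintro w ⟨e, he, hw⟩
    rcases lt_abs.1 hw with h | h
    · right
      by_cases hwN : act β w ∈ N
      · exact Or.inr hwN
      refine Or.inl ⟨sh e, hsh e he, Or.inr ?_⟩
      have := hbw β e he w hwN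
      linarith
    · left
      by_cases hwN : w ∈ N
      · exact Or.inr hwN
      refine Or.inl ⟨e, hK0 he, Or.inl ?_⟩
      have := hfw β e he w hwN
      linarith
  refine (measureReal_mono hsub (measure_ne_top μ _)).trans ((measureReal_union_le _ _).trans ?_)
  have h1 := real_preimage_le (hact β) (Bad ∪ N)
  have h2 := measureReal_union_le (μ := μ) Bad N
  linarith

end rc

/-- **STP, the choice of the shears**: off `N` all the kernels `e ∈ K` are okay. -/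
theorem stp_core [IsProbabilityMeasure μ] {R t τ n l : ℕ} {I : Finset ℕ} (hI : I ⊆ range t) (ht : 0 < t) (hR1 : R / 4 ≤ τ)
    (hR2 : τ + 2 * t * (n * l) ≤ 3 * R / 4) (hn : 0 < n) (hl : 0 < l) {cw A η lam U s : ℝ} (hcw : 2 * cw + 2 * (I.card : ℝ) ≤ t)
    (hA : 0 < A) (hη0 : 0 ≤ η) (hη : η ≤ 1 / 4) (hlam : 0 ≤ lam) (hs : 0 ≤ s) (K K0 : Finset Ker) (hK0 : K0 ⊆ K)
    (hsh : ∀ e ∈ K0, (e.1, e.2.1, e.2.2 + n * I.card) ∈ K)
    (hK : ∀ e ∈ K, e.1 ≤ τ ∧ 3 * R / 4 ≤ e.2.1 ∧ e.2.1 ≤ R ∧ 0 ≤ e.2.2 ∧ e.2.2 ≤ eN e) (N : Set Env) (hN : MeasurableSet N)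
    (hf : ∀ w, w ∉ N → ∀ e ∈ K, Okay μ t τ I (n * l) cw A η lam U e w) :
    ∃ β : Fin n → Fin l, (law μ).real {w | ∃ e ∈ K0, (U + 1 + lam + 3 * (η * (n * l * A))) / l + s + 1 <
        |fk μ (pat R 0 (bigI R t τ I (cho 1 β)) fun _ => 1) w e.1 e.2.1 0 e.2.2 - fk μ 0 w e.1 e.2.1 0 e.2.2|} ≤
      6 * (law μ).real N + 8 * (K.card * Real.exp (-(s ^ 2 / (8 * A ^ 2 * n)))) := by
  have hmE : ∀ e : Ker, Measurable fun w : Env => sE e w := fun e => (mp_sh (μ := μ) _).measurable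
  obtain ⟨β, hβ⟩ := rc_two' (law μ) K K0 hl hn (fun e => SS e) (fun e => TT t τ (n * l) cw e) (fun e => TT_sub)
    (fun e w S => pE μ e w S) (fun e w j i S => rE μ t τ I 1 e w j i S) (fun e w j i S => rE μ t τ I (-1) e w j i S)
    (fun e S _ => (measurable_gp (eN e) e.2.2 S).comp (hmE e))
    (fun e j i S _ => ((measurable_fb t (τ - e.1) I _ 1 (pos S)).comp (hmE e)).sub
      ((measurable_fb t (τ - e.1) I _ 0 (pos S)).comp (hmE e)))
    (fun e j i S _ => ((measurable_fb t (τ - e.1) I _ (-1) (pos S)).comp (hmE e)).sub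
      ((measurable_fb t (τ - e.1) I _ 0 (pos S)).comp (hmE e)))
    (s := s) (A := A) (η := η) (lam := lam) (U := U) hA hη0 hη hlam hs N hN
    (fun w hw e he => by
      obtain ⟨k1, k2, k3, k4, k5⟩ := hK e he
      refine (hf w hw e he).fine ht hI hcw ?_ k4 k5 hη
      unfold eN
      omega)
    (fun e w => fk μ 0 w e.1 e.2.1 0 e.2.2) (fun β w => shr 0 (pat t τ I (cho 1 β)) w)
    (fun e => (e.1, e.2.1, e.2.2 + n * I.card)) (fun β => mp_shr 0 _) hK0 hsh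
    (fun β e he w hw => by
      obtain ⟨k1, k2, k3, k4, k5⟩ := hK e (hK0 he)
      have hue : e.1 ≤ e.2.1 := by omega
      have h6 := gain_cho (hf w hw e (hK0 he)) ht hI hcw (by unfold eN; omega) k4 k5 hη (a := 1) (by norm_num) hue k1 β
      refine h6.trans (le_of_eq ?_)
      rw [fk_cross (v := pat t τ I (cho 1 β)) w hue (fun k hk => pat_before t τ I _ (by omega))]
      have h7 : sv (pat t τ I (cho 1 β)) 0 e.2.1 = n * I.card := by
        rw [sv_pat_total t τ hI (fun b hb => cho_ge 1 β hb) (by omega), sum_cho (M := ℤ) 1 β (fun _ a => a) fun _ => rfl]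
        simp [mul_comm]
      rw [h7])
    (fun β e he w hw => by
      obtain ⟨k1, k2, k3, k4, k5⟩ := hK e (hK0 he)
      have he' := hsh e he
      obtain ⟨l1, l2, l3, l4, l5⟩ := hK _ he'
      have hue : e.1 ≤ e.2.1 := by omega
      have h6 := gain_cho (hf _ hw _ he') ht hI hcw (by show τ - e.1 + 2 * t * (n * l) ≤ e.2.1 - e.1; omega) l4 l5 hη
        (a := -1) (by norm_num) hue k1 β
      refine h6.trans (le_of_eq ?_)
      have h7 : sv (pat t τ I (cho 1 β)) 0 e.2.1 = n * I.card := by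
        rw [sv_pat_total t τ hI (fun b hb => cho_ge 1 β hb) (by omega), sum_cho (M := ℤ) 1 β (fun _ a => a) fun _ => rfl]
        simp [mul_comm]
      have h8 : pat t τ I (cho (-1) β) = -pat t τ I (cho 1 β) := by
        rw [← pat_neg, neg_cho]
      have h9 : sv (pat t τ I (cho 1 β)) 0 e.1 = 0 := sv_eq_zero fun k _ hk => pat_before t τ I _ (by omega)
      have h10 : fk μ (pat t τ I (cho (-1) β)) (shr 0 (pat t τ I (cho 1 β)) w) e.1 e.2.1 0 (e.2.2 + n * I.card) =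
          fk μ 0 w e.1 e.2.1 0 e.2.2 := by
        rw [h8, fk_shr (-pat t τ I (cho 1 β)) (pat t τ I (cho 1 β)) w (Nat.zero_le _) hue, neg_add_cancel, h9, h7, sub_zero,
          add_sub_cancel_right]
      show fk μ (pat t τ I (cho (-1) β)) (shr 0 (pat t τ I (cho 1 β)) w) e.1 e.2.1 0 (e.2.2 + n * I.card) - _ = _
      rw [h10])
  refine ⟨β, le_trans (measureReal_mono ?_ (measure_ne_top _ _)) hβ⟩
  rintro w ⟨e, he, hw⟩
  refine ⟨e, he, hw.trans_le (le_of_eq ?_)⟩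
  obtain ⟨k1, k2, k3, k4, k5⟩ := hK e (hK0 he)
  have hue : e.1 ≤ e.2.1 := by omega
  have h7 : sv (pat t τ I (cho 1 β)) 0 e.2.1 = n * I.card := by
    rw [sv_pat_total t τ hI (fun b hb => cho_ge 1 β hb) (by omega), sum_cho (M := ℤ) 1 β (fun _ a => a) fun _ => rfl]
    simp [mul_comm]
  have h11 : fk μ (pat R 0 (bigI R t τ I (cho 1 β)) fun _ => 1) w e.1 e.2.1 0 e.2.2 =
      fk μ 0 (shr 0 (pat t τ I (cho 1 β)) w) e.1 e.2.1 0 (e.2.2 + n * I.card) := by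
    rw [← h7, ← fk_cross (v := pat t τ I (cho 1 β)) w hue (fun k hk => pat_before t τ I _ (by omega))]
    exact fk_congr (fun k _ hk => pat_bigI hI (fun b hb => cho_ge 1 β hb) (cho_values 1 β) hR1 hR2 (by omega)) w _ _
  rw [h11]

end

end Pool.Agent.W_7d29a1_Z22
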