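import Pool.Agent.W_7d29a1_Z.Bri
import Pool.Agent.W_7d29a1_X.Path89

/-!
STORM Z, (RC): the sheared weight of a set of skeletons is at most the kernel of the sheared model. `g` is the grid of the times of the
skeleton, `d`, `d'` the cumulated jumps of the two models; the weight of the paths `S ∈ T` of the first model, multiplied by the
product of the ratios of the kernels of the pieces, adds up to at most the kernel of the second model. (helper22, with `skel_le` of
helper79)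
-/

namespace Pool.Agent.W_7d29a1_Z22

open Finset Pool.Agent.W_7d29a1_F Pool.Agent.W_7d29a1_Z

noncomputable section

variable {μ : MeasureTheory.Measure ℝ} {s : ℝ}

/-- The kernel between two positions of a path is positive. -/
theorem Kf_pos_of_path (d : ℕ → ℤ) (η : Env) {t0 t1 t2 : ℕ} (h0 : t0 ≤ t1) (h1 : t1 ≤ t2) (x : ℤ) (S : Finset ℕ) :
    0 < Kf μ s d η t1 (ps d t0 x S t1) t2 (ps d t0 x S t2) := by
  have hmem : S ∩ Ico t1 t2 ∈ pcs d t1 (ps d t0 x S t1) t2 (ps d t0 x S t2) := by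
    rw [mem_pcs]
    refine ⟨inter_subset_right, ?_⟩
    rw [ps_inter d t1 _ S le_rfl]
    exact ps_chain d x S h0 h1
  unfold Kf
  exact sum_pos (fun _ _ => pw_pos _ _ _ _ _ _) ⟨_, hmem⟩

/-- The logarithmic response of the piece `j` of the grid `g` for the positions `p`. -/
def rsp (μ : MeasureTheory.Measure ℝ) (s : ℝ) (d d' : ℕ → ℤ) (η η' : Env) (g : ℕ → ℕ) (p : ℕ → ℤ) (j : ℕ) : ℝ :=
  Real.log (Kf μ s d' η' (g j) (p j) (g (j + 1)) (p (j + 1))) - Real.log (Kf μ s d η (g j) (p j) (g (j + 1)) (p (j + 1)))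

/-- **The sheared weight of a set of skeletons.** -/
theorem gain_le {g : ℕ → ℕ} (hg : Monotone g) (n : ℕ) (d d' : ℕ → ℤ) (η η' : Env) (x y : ℤ) (T : Finset (Finset ℕ))
    (hT : T ⊆ pcs d (g 0) x (g n) y)
    (hpos : ∀ S ∈ T, ∀ j < n, 0 < Kf μ s d' η' (g j) (ps d (g 0) x S (g j)) (g (j + 1)) (ps d (g 0) x S (g (j + 1)))) :
    ∑ S ∈ T, pw μ s d η (g 0) x (g n) S *
        Real.exp (∑ j ∈ range n, rsp μ s d d' η η' g (fun i => ps d (g 0) x S (g i)) j) ≤
      Kf μ s d' η' (g 0) x (g n) y := by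
  classical
  have h0n : g 0 ≤ g n := hg (Nat.zero_le n)
  -- the indicator of the skeletons of T
  let F : (ℕ → ℤ) → ℝ := fun p => if p n = y ∧ ∃ S ∈ T, ∀ j ≤ n, p j = ps d (g 0) x S (g j) then 1 else 0
  have hF0 : ∀ p, 0 ≤ F p := fun p => by
    show 0 ≤ ite _ _ _
    split_ifs <;> norm_num
  have hF1 : ∀ p, F p ≤ if p n = y then 1 else 0 := fun p => by
    show ite _ _ _ ≤ ite _ _ _
    split_ifs with h1 h2
    · exact le_rfl
    · exact absurd h1.1 h2
    · norm_num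
    · exact le_rfl
  have hFloc : ∀ p q : ℕ → ℤ, (∀ j ≤ n, p j = q j) → F p = F q := by
    intro p q hpq
    have e1 : (p n = y ∧ ∃ S ∈ T, ∀ j ≤ n, p j = ps d (g 0) x S (g j)) ↔
        (q n = y ∧ ∃ S ∈ T, ∀ j ≤ n, q j = ps d (g 0) x S (g j)) := by
      rw [hpq n le_rfl]
      constructor
      · rintro ⟨a, S, hS, hj⟩
        exact ⟨a, S, hS, fun j hjn => by rw [← hpq j hjn]; exact hj j hjn⟩
      · rintro ⟨a, S, hS, hj⟩
        exact ⟨a, S, hS, fun j hjn => by rw [hpq j hjn]; exact hj j hjn⟩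
    show ite _ _ _ = ite _ _ _
    simp only [e1]
  have hmain := Pool.Agent.W_7d29a1_Z79.skel_le (h := s) (c := lam μ s) (d := d) (d' := d') (η := η) (η' := η') hg x n F hF0 hFloc
  -- the left side
  have hsub : T ⊆ (Ico (g 0) (g n)).powerset := fun S hS => mem_powerset.2 (mem_pcs.1 (hT hS)).1
  have hL : ∑ S ∈ T, pw μ s d η (g 0) x (g n) S *
        Real.exp (∑ j ∈ range n, rsp μ s d d' η η' g (fun i => ps d (g 0) x S (g i)) j) ≤
      ∑ S ∈ (Ico (g 0) (g n)).powerset, Pool.Agent.W_7d29a1_Z79.wt s (lam μ s) d η (g 0) x (g n) S *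
        (∏ j ∈ range n, Pool.Agent.W_7d29a1_Z79.Kn s (lam μ s) d' η' (g j) (Pool.Agent.W_7d29a1_Z79.ps d x (g 0) S (g j)) (g (j + 1))
            (Pool.Agent.W_7d29a1_Z79.ps d x (g 0) S (g (j + 1))) /
          Pool.Agent.W_7d29a1_Z79.Kn s (lam μ s) d η (g j) (Pool.Agent.W_7d29a1_Z79.ps d x (g 0) S (g j)) (g (j + 1))
            (Pool.Agent.W_7d29a1_Z79.ps d x (g 0) S (g (j + 1)))) *
        F (fun j => Pool.Agent.W_7d29a1_Z79.ps d x (g 0) S (g j)) := by
    refine le_trans (sum_le_sum fun S hS => ?_) (sum_le_sum_of_subset_of_nonneg hsub fun S _ _ => ?_)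
    · have hFS : F (fun j => Pool.Agent.W_7d29a1_Z79.ps d x (g 0) S (g j)) = 1 := by
        show ite _ _ _ = _
        rw [if_pos]
        exact ⟨(mem_pcs.1 (hT hS)).2, S, hS, fun j _ => rfl⟩
      rw [hFS, mul_one, pw_eq79 d η h0n]
      refine le_of_eq ?_
      congr 1
      rw [Real.exp_sum]
      refine prod_congr rfl fun j hj => ?_
      rw [mem_range] at hj
      have h1 : g j ≤ g (j + 1) := hg (Nat.le_succ j)
      have h0j : g 0 ≤ g j := hg (Nat.zero_le j)
      have p1 := hpos S hS j hj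
      have p2 := Kf_pos_of_path (μ := μ) (s := s) d η h0j h1 x S
      unfold rsp
      rw [Real.exp_sub, Real.exp_log p1, Real.exp_log p2, Kf_eq79 d' η' h1, Kf_eq79 d η h1]
      rfl
    · refine mul_nonneg (mul_nonneg (Pool.Agent.W_7d29a1_Z79.wt_pos _ _ _ _).le (prod_nonneg fun j _ => ?_))
        (hF0 fun j => Pool.Agent.W_7d29a1_Z79.ps d x (g 0) S (g j))
      exact div_nonneg (Pool.Agent.W_7d29a1_Z79.Kn_nonneg _ _ _ _) (Pool.Agent.W_7d29a1_Z79.Kn_nonneg _ _ _ _)
  -- the right side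
  have hR : ∑ S ∈ (Ico (g 0) (g n)).powerset, Pool.Agent.W_7d29a1_Z79.wt s (lam μ s) d' η' (g 0) x (g n) S *
        F (fun j => Pool.Agent.W_7d29a1_Z79.ps d' x (g 0) S (g j)) ≤ Kf μ s d' η' (g 0) x (g n) y := by
    rw [Kf_eq79 d' η' h0n]
    unfold Pool.Agent.W_7d29a1_Z79.Kn
    rw [sum_filter]
    refine sum_le_sum fun S _ => ?_
    have h1 := hF1 (fun j => Pool.Agent.W_7d29a1_Z79.ps d' x (g 0) S (g j))
    have h2 := (Pool.Agent.W_7d29a1_Z79.wt_pos (h := s) (c := lam μ s) (d := d') (η := η') (g 0) x (g n) S).le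
    split_ifs at h1 ⊢ with h3
    · nlinarith
    · have h4 := hF0 (fun j => Pool.Agent.W_7d29a1_Z79.ps d' x (g 0) S (g j))
      nlinarith
  exact hL.trans (hmain.trans hR)

/-- The logarithmic form, for `gain` of `RC.lean`. -/
theorem log_gain_le {g : ℕ → ℕ} (hg : Monotone g) (n : ℕ) (d d' : ℕ → ℤ) (η η' : Env) (x y : ℤ) (T : Finset (Finset ℕ))
    (hT : T ⊆ pcs d (g 0) x (g n) y) (hne : T.Nonempty)
    (hpos : ∀ S ∈ T, ∀ j < n, 0 < Kf μ s d' η' (g j) (ps d (g 0) x S (g j)) (g (j + 1)) (ps d (g 0) x S (g (j + 1)))) :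
    Real.log (∑ S ∈ T, pw μ s d η (g 0) x (g n) S *
        Real.exp (∑ j ∈ range n, rsp μ s d d' η η' g (fun i => ps d (g 0) x S (g i)) j)) -
      Real.log (∑ S ∈ pcs d (g 0) x (g n) y, pw μ s d η (g 0) x (g n) S) ≤
      Real.log (Kf μ s d' η' (g 0) x (g n) y) - Real.log (Kf μ s d η (g 0) x (g n) y) := by
  have h1 := gain_le (μ := μ) (s := s) hg n d d' η η' x y T hT hpos
  have h2 : 0 < ∑ S ∈ T, pw μ s d η (g 0) x (g n) S *
        Real.exp (∑ j ∈ range n, rsp μ s d d' η η' g (fun i => ps d (g 0) x S (g i)) j) :=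
    sum_pos (fun _ _ => mul_pos (pw_pos _ _ _ _ _ _) (Real.exp_pos _)) hne
  have h3 := Real.log_le_log h2 h1
  have h4 : ∑ S ∈ pcs d (g 0) x (g n) y, pw μ s d η (g 0) x (g n) S = Kf μ s d η (g 0) x (g n) y := rfl
  rw [h4]
  linarith

/-- The kernels of a piece on which the two models make the same jumps are equal. -/
theorem Kf_congr_jump (d d' : ℕ → ℤ) (η : Env) {t1 t2 : ℕ} (h : ∀ t, t1 ≤ t → t ≤ t2 → d t - d t1 = d' t - d' t1) (x y : ℤ)
    (ht : t1 ≤ t2) : Kf μ s d η t1 x t2 y = Kf μ s d' η t1 x t2 y := by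
  have hps : ∀ (S : Finset ℕ) (t : ℕ), t1 ≤ t → t ≤ t2 → ps d t1 x S t = ps d' t1 x S t := by
    intro S t ha hb
    unfold ps
    rw [h t ha hb]
  unfold Kf
  refine sum_congr ?_ fun S _ => ?_
  · ext S
    rw [mem_pcs, mem_pcs, hps S t2 ht le_rfl]
  · unfold pw
    congr 1
    refine prod_congr rfl fun t ht' => ?_
    rw [mem_Ioc] at ht'
    rw [hps S t ht'.1.le ht'.2]

/-- A piece without additional jumps does not respond. -/
theorem rsp_zero (d d' : ℕ → ℤ) (η : Env) {g : ℕ → ℕ} (hg : Monotone g) (p : ℕ → ℤ) {j : ℕ}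
    (h : ∀ t, g j ≤ t → t ≤ g (j + 1) → d t - d (g j) = d' t - d' (g j)) : rsp μ s d d' η η g p j = 0 := by
  unfold rsp
  rw [Kf_congr_jump d d' η h _ _ (hg (Nat.le_succ j)), sub_self]

/-- The response of a piece depends only on the jumps in the piece. -/
theorem rsp_congr (d d' d'' : ℕ → ℤ) (η : Env) {g : ℕ → ℕ} (hg : Monotone g) (p : ℕ → ℤ) {j : ℕ}
    (h : ∀ t, g j ≤ t → t ≤ g (j + 1) → d' t - d' (g j) = d'' t - d'' (g j)) :
    rsp μ s d d' η η g p j = rsp μ s d d'' η η g p j := by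
  unfold rsp
  rw [Kf_congr_jump d' d'' η h _ _ (hg (Nat.le_succ j))]

/-- The kernel without jumps is the weight `W`. -/
theorem Kf_succ (η : Env) (t1 n : ℕ) (x y : ℤ) :
    Kf μ s 0 η t1 x (t1 + (n + 1)) y = Real.exp (η ((t1 : ℤ) + (n + 1), y)) * Real.exp (-lam μ s) *
      (Kf μ s 0 η t1 x (t1 + n) y + Real.exp s * Kf μ s 0 η t1 x (t1 + n) (y - 1)) := by
  classical
  have hps : ∀ S ⊆ Ico t1 (t1 + n), ps 0 t1 x S (t1 + (n + 1)) = ps 0 t1 x S (t1 + n) := by
    intro S hS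
    unfold ps
    have e1 : S ∩ Ico t1 (t1 + (n + 1)) = S ∩ Ico t1 (t1 + n) := by
      ext i
      simp only [mem_inter, mem_Ico]
      constructor
      · rintro ⟨h1, -⟩
        have := hS h1
        rw [mem_Ico] at this
        exact ⟨h1, this⟩
      · rintro ⟨h1, h2, h3⟩
        exact ⟨h1, h2, by omega⟩
    rw [e1]
    simp
  have hps1 : ∀ S ⊆ Ico t1 (t1 + n), ps 0 t1 x (insert (t1 + n) S) (t1 + (n + 1)) = ps 0 t1 x S (t1 + n) + 1 := by
    intro S hS
    have hnot : t1 + n ∉ S := fun h => by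
      have := hS h
      rw [mem_Ico] at this
      omega
    unfold ps
    have e1 : insert (t1 + n) S ∩ Ico t1 (t1 + (n + 1)) = insert (t1 + n) (S ∩ Ico t1 (t1 + n)) := by
      ext i
      simp only [mem_inter, mem_insert, mem_Ico]
      constructor
      · rintro ⟨h1 | h1, h2, h3⟩
        · exact Or.inl h1
        · have := hS h1
          rw [mem_Ico] at this
          exact Or.inr ⟨h1, this⟩
      · rintro (h1 | ⟨h1, h2, h3⟩)
        · exact ⟨Or.inl h1, by omega, by omega⟩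
        · exact ⟨Or.inr h1, h2, by omega⟩
    rw [e1, card_insert_of_notMem (fun h => hnot (mem_inter.1 h).1)]
    push_cast
    simp
    ring
  have hpos : ∀ S : Finset ℕ, ∀ t ≤ t1 + n, ps 0 t1 x (insert (t1 + n) S) t = ps 0 t1 x S t := by
    intro S t ht
    refine ps_congr _ _ _ ?_
    ext i
    simp only [mem_inter, mem_insert, mem_Ico]
    constructor
    · rintro ⟨h1 | h1, h2, h3⟩
      · omega
      · exact ⟨h1, h2, h3⟩
    · rintro ⟨h1, h2, h3⟩
      exact ⟨Or.inr h1, h2, h3⟩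
  -- weights
  have hIoc : Ioc t1 (t1 + (n + 1)) = insert (t1 + (n + 1)) (Ioc t1 (t1 + n)) := by
    ext i
    simp only [mem_Ioc, mem_insert]
    omega
  have hnotI : t1 + (n + 1) ∉ Ioc t1 (t1 + n) := by
    rw [mem_Ioc]
    omega
  have hw0 : ∀ S ⊆ Ico t1 (t1 + n), pw μ s 0 η t1 x (t1 + (n + 1)) S =
      Real.exp (η ((t1 : ℤ) + (n + 1), ps 0 t1 x S (t1 + n))) * Real.exp (-lam μ s) * pw μ s 0 η t1 x (t1 + n) S := by
    intro S hS
    unfold pw
    rw [hIoc, prod_insert hnotI, hps S hS]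
    have e1 : S ∩ Ico t1 (t1 + (n + 1)) = S := inter_eq_left.2 (hS.trans (Ico_subset_Ico_right (by omega)))
    have e2 : S ∩ Ico t1 (t1 + n) = S := inter_eq_left.2 hS
    have e3 : ((t1 + (n + 1) - t1 : ℕ) : ℝ) = ((t1 + n - t1 : ℕ) : ℝ) + 1 := by
      rw [Nat.add_sub_cancel_left, Nat.add_sub_cancel_left]
      push_cast
      ring
    have e4 : Real.exp (s * (S.card : ℝ) - (((t1 + n - t1 : ℕ) : ℝ) + 1) * lam μ s) =
        Real.exp (-lam μ s) * Real.exp (s * (S.card : ℝ) - ((t1 + n - t1 : ℕ) : ℝ) * lam μ s) := by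
      rw [← Real.exp_add]
      congr 1
      ring
    rw [e1, e2, e3, e4]
    push_cast
    ring
  have hw1 : ∀ S ⊆ Ico t1 (t1 + n), pw μ s 0 η t1 x (t1 + (n + 1)) (insert (t1 + n) S) =
      Real.exp (η ((t1 : ℤ) + (n + 1), ps 0 t1 x S (t1 + n) + 1)) * Real.exp (-lam μ s) *
        (Real.exp s * pw μ s 0 η t1 x (t1 + n) S) := by
    intro S hS
    have hnot : t1 + n ∉ S := fun h => by
      have := hS h
      rw [mem_Ico] at this
      omega
    unfold pw
    rw [hIoc, prod_insert hnotI, hps1 S hS]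
    have e0 : ∏ t ∈ Ioc t1 (t1 + n), Real.exp (η ((t : ℤ), ps 0 t1 x (insert (t1 + n) S) t)) =
        ∏ t ∈ Ioc t1 (t1 + n), Real.exp (η ((t : ℤ), ps 0 t1 x S t)) := by
      refine prod_congr rfl fun t ht => ?_
      rw [mem_Ioc] at ht
      rw [hpos S t ht.2]
    have e1 : insert (t1 + n) S ∩ Ico t1 (t1 + (n + 1)) = insert (t1 + n) S := by
      refine inter_eq_left.2 (insert_subset (by rw [mem_Ico]; omega) (hS.trans (Ico_subset_Ico_right (by omega))))
    have e2 : S ∩ Ico t1 (t1 + n) = S := inter_eq_left.2 hS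
    have e3 : ((t1 + (n + 1) - t1 : ℕ) : ℝ) = ((t1 + n - t1 : ℕ) : ℝ) + 1 := by
      rw [Nat.add_sub_cancel_left, Nat.add_sub_cancel_left]
      push_cast
      ring
    have e4 : Real.exp (s * ((S.card : ℝ) + 1) - (((t1 + n - t1 : ℕ) : ℝ) + 1) * lam μ s) =
        Real.exp (-lam μ s) * (Real.exp s * Real.exp (s * (S.card : ℝ) - ((t1 + n - t1 : ℕ) : ℝ) * lam μ s)) := by
      rw [← Real.exp_add, ← Real.exp_add]
      congr 1
      ring
    rw [e0, e1, e2, e3, card_insert_of_notMem hnot]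
    push_cast
    rw [e4]
    ring
  -- the sum
  have hIco : Ico t1 (t1 + (n + 1)) = insert (t1 + n) (Ico t1 (t1 + n)) := by
    ext i
    simp only [mem_Ico, mem_insert]
    omega
  have hnot : t1 + n ∉ Ico t1 (t1 + n) := by
    rw [mem_Ico]
    omega
  have eK : ∀ (m : ℕ) (z : ℤ), Kf μ s 0 η t1 x (t1 + m) z =
      ∑ S ∈ (Ico t1 (t1 + m)).powerset, if ps 0 t1 x S (t1 + m) = z then pw μ s 0 η t1 x (t1 + m) S else 0 := by
    intro m z
    unfold Kf pcs
    rw [sum_filter]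
  rw [eK, hIco, sum_powerset_insert hnot, eK, eK, mul_add, mul_sum, mul_sum, mul_sum]
  congr 1
  · refine sum_congr rfl fun S hS => ?_
    rw [mem_powerset] at hS
    rw [hps S hS]
    split_ifs with h
    · rw [hw0 S hS, h]
    · rw [mul_zero]
  · refine sum_congr rfl fun S hS => ?_
    rw [mem_powerset] at hS
    rw [hps1 S hS]
    by_cases h : ps 0 t1 x S (t1 + n) + 1 = y
    · rw [if_pos h, if_pos (by linarith), hw1 S hS, h]
    · rw [if_neg h, if_neg (by intro h'; exact h (by linarith)), mul_zero, mul_zero]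

/-- The kernel without jumps is the normalised weight. -/
theorem Kf_W (η : Env) (t1 : ℕ) (x : ℤ) (n : ℕ) : ∀ z : ℤ, Kf μ s 0 η t1 x (t1 + n) (x + z) = W μ s η ((t1 : ℤ), x) n z := by
  induction n with
  | zero =>
    intro z
    classical
    have e0 : W μ s η ((t1 : ℤ), x) 0 z = if z = 0 then 1 else 0 := by
      unfold W WR
      have : Zr Set.univ η ((t1 : ℤ), x) 0 z = if z = 0 then 1 else 0 := rfl
      rw [this]
      split_ifs with h
      · rw [h]
        simp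
      · rw [mul_zero]
    rw [e0]
    unfold Kf pcs
    rw [Nat.add_zero, Ico_self, powerset_empty, sum_filter, sum_singleton, ps_self, pw_self]
    by_cases h : z = 0
    · rw [if_pos h, if_pos (by rw [h]; ring)]
    · rw [if_neg h, if_neg (by intro h'; exact h (by linarith))]
  | succ n ih =>
    intro z
    have e1 : x + z - 1 = x + (z - 1) := by ring
    rw [Kf_succ, ih z, e1, ih (z - 1), Pool.Agent.W_7d29a1_X.W_succ]

end

end Pool.Agent.W_7d29a1_Z22
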