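import Mathlib

/-!
STORM Z, (RC), the deterministic part. A finite set `s` of skeletons with the weights `p`; changing the environment by a shear multiplies
the weight of the skeleton `i` by `exp (∑ b, φ b i)`, `b` over the blocks which carry the shear. `G ⊆ s` is a set of good skeletons which
carries almost the whole weight, `cm G p f` the mean of `f` conditioned on `G`. Jensen on `G`, Jensen for both signs together with
the smallness of the even part, Jensen for a sub-collection of the blocks. (helper22)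
-/

namespace Pool.Agent.W_7d29a1_Z22

open Finset

noncomputable section

variable {α ι : Type*}

/-- The mean of `f` for the weights `p`, conditioned on the set `G`. -/
def cm (G : Finset α) (p f : α → ℝ) : ℝ := (∑ i ∈ G, p i * f i) / ∑ i ∈ G, p i

theorem cm_sum (G : Finset α) (p : α → ℝ) (bs : Finset ι) (f : ι → α → ℝ) :
    cm G p (fun i => ∑ b ∈ bs, f b i) = ∑ b ∈ bs, cm G p (f b) := by
  unfold cm
  rw [← sum_div, sum_comm]
  congr 1
  exact sum_congr rfl fun i _ => mul_sum _ _ _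

theorem cm_add (G : Finset α) (p f g : α → ℝ) : cm G p (fun i => f i + g i) = cm G p f + cm G p g := by
  unfold cm
  rw [← add_div, ← sum_add_distrib]
  congr 1
  exact sum_congr rfl fun i _ => mul_add _ _ _

theorem cm_neg (G : Finset α) (p f : α → ℝ) : cm G p (fun i => - f i) = - cm G p f := by
  unfold cm
  rw [← neg_div, ← sum_neg_distrib]
  congr 1
  exact sum_congr rfl fun i _ => by ring

theorem cm_ge {G : Finset α} {p f : α → ℝ} {c : ℝ} (hp : ∀ i ∈ G, 0 ≤ p i) (hG : 0 < ∑ i ∈ G, p i)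
    (h : ∀ i ∈ G, c ≤ f i) : c ≤ cm G p f := by
  unfold cm
  rw [le_div_iff₀ hG, mul_sum]
  exact sum_le_sum fun i hi => by nlinarith [hp i hi, h i hi]

theorem cm_le {G : Finset α} {p f : α → ℝ} {c : ℝ} (hp : ∀ i ∈ G, 0 ≤ p i) (hG : 0 < ∑ i ∈ G, p i)
    (h : ∀ i ∈ G, f i ≤ c) : cm G p f ≤ c := by
  unfold cm
  rw [div_le_iff₀ hG, mul_sum]
  exact sum_le_sum fun i hi => by nlinarith [hp i hi, h i hi]

theorem abs_cm_le {G : Finset α} {p f : α → ℝ} {c : ℝ} (hp : ∀ i ∈ G, 0 ≤ p i) (hG : 0 < ∑ i ∈ G, p i)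
    (h : ∀ i ∈ G, |f i| ≤ c) : |cm G p f| ≤ c :=
  abs_le.2 ⟨cm_ge hp hG fun i hi => (abs_le.1 (h i hi)).1, cm_le hp hG fun i hi => (abs_le.1 (h i hi)).2⟩

/-- Jensen: the mean of the exponential is at least the exponential of the mean. -/
theorem jens {G : Finset α} {p f : α → ℝ} (hp : ∀ i ∈ G, 0 ≤ p i) (hG : 0 < ∑ i ∈ G, p i) :
    Real.exp (cm G p f) * ∑ i ∈ G, p i ≤ ∑ i ∈ G, p i * Real.exp (f i) := by
  have h : ∀ i ∈ G, p i * (Real.exp (cm G p f) * (1 + (f i - cm G p f))) ≤ p i * Real.exp (f i) := by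
    intro i hi
    refine mul_le_mul_of_nonneg_left ?_ (hp i hi)
    have e1 : Real.exp (f i) = Real.exp (cm G p f) * Real.exp (f i - cm G p f) := by
      rw [← Real.exp_add]
      congr 1
      ring
    rw [e1]
    refine mul_le_mul_of_nonneg_left ?_ (Real.exp_pos _).le
    linarith [Real.add_one_le_exp (f i - cm G p f)]
  refine le_trans (le_of_eq ?_) (sum_le_sum h)
  have e2 : ∑ i ∈ G, p i * (Real.exp (cm G p f) * (1 + (f i - cm G p f))) =
      Real.exp (cm G p f) * ((1 - cm G p f) * ∑ i ∈ G, p i + ∑ i ∈ G, p i * f i) := by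
    rw [mul_sum, ← sum_add_distrib, mul_sum]
    exact sum_congr rfl fun i _ => by ring
  have e3 : ∑ i ∈ G, p i * f i = cm G p f * ∑ i ∈ G, p i := by
    unfold cm
    field_simp
  rw [e2, e3]
  ring

/-- Jensen on a good set `G` of weight at least `3/4`: the logarithm of the ratio of the partition functions is at least the
conditional mean, minus one. Total weight over `s`, numerator over any `r` with `G ⊆ r ⊆ s`. -/
theorem jens_log {s r G : Finset α} {p f : α → ℝ} (hGr : G ⊆ r) (hrs : r ⊆ s) (hp : ∀ i ∈ s, 0 ≤ p i)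
    (hs : 0 < ∑ i ∈ s, p i) (hG : 3 / 4 * ∑ i ∈ s, p i ≤ ∑ i ∈ G, p i) :
    cm G p f - 1 ≤ Real.log (∑ i ∈ r, p i * Real.exp (f i)) - Real.log (∑ i ∈ s, p i) := by
  have hG0 : 0 < ∑ i ∈ G, p i := lt_of_lt_of_le (by positivity) hG
  have h1 := jens (f := f) (fun i hi => hp i (hrs (hGr hi))) hG0
  have h2 : ∑ i ∈ G, p i * Real.exp (f i) ≤ ∑ i ∈ r, p i * Real.exp (f i) :=
    sum_le_sum_of_subset_of_nonneg hGr fun i hi _ => mul_nonneg (hp i (hrs hi)) (Real.exp_pos _).le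
  have h3 : Real.exp (cm G p f) * (3 / 4 * ∑ i ∈ s, p i) ≤ ∑ i ∈ r, p i * Real.exp (f i) :=
    (mul_le_mul_of_nonneg_left hG (Real.exp_pos _).le).trans (h1.trans h2)
  have h4 : Real.exp (cm G p f - 1) * ∑ i ∈ s, p i ≤ ∑ i ∈ r, p i * Real.exp (f i) := by
    refine le_trans ?_ h3
    rw [sub_eq_add_neg, Real.exp_add]
    have h5 : Real.exp (-1) ≤ 3 / 4 := by
      have h6 : (2 : ℝ) ≤ Real.exp 1 := by linarith [Real.add_one_le_exp (1 : ℝ)]
      rw [Real.exp_neg]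
      calc (Real.exp 1)⁻¹ ≤ 2⁻¹ := inv_anti₀ (by norm_num) h6
        _ ≤ 3 / 4 := by norm_num
    have h7 := mul_le_mul_of_nonneg_left (mul_le_mul_of_nonneg_right h5 hs.le) (Real.exp_pos (cm G p f)).le
    calc Real.exp (cm G p f) * Real.exp (-1) * ∑ i ∈ s, p i =
        Real.exp (cm G p f) * (Real.exp (-1) * ∑ i ∈ s, p i) := by ring
      _ ≤ _ := h7
  have h8 := Real.log_le_log (by positivity) h4
  rw [Real.log_mul (Real.exp_pos _).ne' hs.ne', Real.log_exp] at h8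
  linarith

/-- **Both signs.** `φ b` and `ψ b` are the responses of the block `b` to the two signs; `|φ|, |ψ| ≤ A` on the good set `G` (weight
`≥ 1 - η`), the even part `∑ b, (φ b + ψ b)` is at most `lam` in absolute value up to the weight `η`, and both partition functions
gain at most `exp U`. Then the two means are small in absolute value. -/
theorem both_signs {s r G : Finset α} {p : α → ℝ} {bs : Finset ι} {φ ψ : ι → α → ℝ} {A η lam U : ℝ} (hGr : G ⊆ r)
    (hrs : r ⊆ s) (hp : ∀ i ∈ s, 0 ≤ p i) (hs : 0 < ∑ i ∈ s, p i) (hη0 : 0 ≤ η) (hη : η ≤ 1 / 4) (hA : 0 ≤ A) (hlam : 0 ≤ lam)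
    (hG : (1 - η) * ∑ i ∈ s, p i ≤ ∑ i ∈ G, p i)
    (hφ : ∀ b ∈ bs, ∀ i ∈ G, |φ b i| ≤ A) (hψ : ∀ b ∈ bs, ∀ i ∈ G, |ψ b i| ≤ A)
    (hD : ∑ i ∈ r with lam < |∑ b ∈ bs, (φ b i + ψ b i)|, p i ≤ η * ∑ i ∈ s, p i)
    (hUφ : Real.log (∑ i ∈ r, p i * Real.exp (∑ b ∈ bs, φ b i)) - Real.log (∑ i ∈ s, p i) ≤ U)
    (hUψ : Real.log (∑ i ∈ r, p i * Real.exp (∑ b ∈ bs, ψ b i)) - Real.log (∑ i ∈ s, p i) ≤ U) :
    |∑ b ∈ bs, cm G p (φ b)| ≤ U + 1 + lam + 3 * (η * (bs.card * A)) ∧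
      |∑ b ∈ bs, cm G p (ψ b)| ≤ U + 1 + lam + 3 * (η * (bs.card * A)) := by
  have hG34 : 3 / 4 * ∑ i ∈ s, p i ≤ ∑ i ∈ G, p i := le_trans (by nlinarith) hG
  have hG0 : 0 < ∑ i ∈ G, p i := lt_of_lt_of_le (by positivity) hG34
  have hpG : ∀ i ∈ G, 0 ≤ p i := fun i hi => hp i (hrs (hGr hi))
  have hn : (0 : ℝ) ≤ bs.card * A := by positivity
  have h1 := jens_log (f := fun i => ∑ b ∈ bs, φ b i) hGr hrs hp hs hG34
  have h2 := jens_log (f := fun i => ∑ b ∈ bs, ψ b i) hGr hrs hp hs hG34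
  have eφ := cm_sum G p bs φ
  have eψ := cm_sum G p bs ψ
  -- the even part
  have h3 : |cm G p (fun i => ∑ b ∈ bs, (φ b i + ψ b i))| ≤ lam + 3 * (η * (bs.card * A)) := by
    classical
    have hsum : |∑ i ∈ G, p i * ∑ b ∈ bs, (φ b i + ψ b i)| ≤
        lam * ∑ i ∈ G, p i + 2 * (bs.card * A) * (η * ∑ i ∈ s, p i) := by
      have hpt : ∀ i ∈ G, |p i * ∑ b ∈ bs, (φ b i + ψ b i)| ≤
          lam * p i + 2 * (bs.card * A) * (if lam < |∑ b ∈ bs, (φ b i + ψ b i)| then p i else 0) := by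
        intro i hi
        rw [abs_mul, abs_of_nonneg (hpG i hi)]
        have hb : |∑ b ∈ bs, (φ b i + ψ b i)| ≤ 2 * (bs.card * A) := by
          calc |∑ b ∈ bs, (φ b i + ψ b i)| ≤ ∑ b ∈ bs, |φ b i + ψ b i| := abs_sum_le_sum_abs _ _
            _ ≤ ∑ b ∈ bs, (2 * A) := sum_le_sum fun b hb => by
                have := abs_add_le (φ b i) (ψ b i)
                linarith [hφ b hb i hi, hψ b hb i hi]
            _ = 2 * (bs.card * A) := by rw [sum_const, nsmul_eq_mul]; ring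
        split_ifs with hc
        · nlinarith [hpG i hi, mul_nonneg hlam (hpG i hi)]
        · have := not_lt.1 hc
          nlinarith [hpG i hi]
      calc |∑ i ∈ G, p i * ∑ b ∈ bs, (φ b i + ψ b i)| ≤ ∑ i ∈ G, |p i * ∑ b ∈ bs, (φ b i + ψ b i)| :=
            abs_sum_le_sum_abs _ _
        _ ≤ ∑ i ∈ G, (lam * p i + 2 * (bs.card * A) * (if lam < |∑ b ∈ bs, (φ b i + ψ b i)| then p i else 0)) :=
            sum_le_sum hpt
        _ = lam * ∑ i ∈ G, p i + 2 * (bs.card * A) *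
            ∑ i ∈ G with lam < |∑ b ∈ bs, (φ b i + ψ b i)|, p i := by
            rw [sum_add_distrib, ← mul_sum, ← mul_sum, sum_filter]
        _ ≤ _ := by
            refine add_le_add_right (mul_le_mul_of_nonneg_left (le_trans ?_ hD) (by positivity)) _
            exact sum_le_sum_of_subset_of_nonneg (filter_subset_filter _ hGr) fun i hi _ =>
              hp i (hrs (mem_filter.1 hi).1)
    unfold cm
    rw [abs_div, abs_of_pos hG0, div_le_iff₀ hG0]
    refine hsum.trans ?_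
    have hηs : η * ∑ i ∈ s, p i ≤ 4 / 3 * (η * ∑ i ∈ G, p i) := by nlinarith
    nlinarith [mul_nonneg hn (mul_nonneg hη0 hG0.le), mul_le_mul_of_nonneg_left hηs hn]
  have h4 : cm G p (fun i => ∑ b ∈ bs, (φ b i + ψ b i)) = ∑ b ∈ bs, cm G p (φ b) + ∑ b ∈ bs, cm G p (ψ b) := by
    rw [cm_sum, ← sum_add_distrib]
    exact sum_congr rfl fun b _ => cm_add _ _ _ _
  rw [h4] at h3
  rw [eφ] at h1
  rw [eψ] at h2
  have h5 := abs_le.1 h3
  constructor <;> rw [abs_le] <;> constructor <;> nlinarith [mul_nonneg hη0 hn]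

/-- **A sub-collection of the blocks**, with an extra exponent `θ` (blocks cut by the end of the kernel): the gain is at least minus the
sampled mean. `τ` is the error of the sampling, `ρ` the proportion, `M` the bound of the total mean. -/
theorem sub_blocks {s r G : Finset α} {p : α → ℝ} {bs β : Finset ι} {φ : ι → α → ℝ} {θ : α → ℝ} {a M ρ τ : ℝ} (hGr : G ⊆ r)
    (hrs : r ⊆ s) (hp : ∀ i ∈ s, 0 ≤ p i) (hs : 0 < ∑ i ∈ s, p i) (hG : 3 / 4 * ∑ i ∈ s, p i ≤ ∑ i ∈ G, p i)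
    (hρ : 0 ≤ ρ) (hθ : ∀ i ∈ G, |θ i| ≤ a)
    (hM : |∑ b ∈ bs, cm G p (φ b)| ≤ M)
    (hS : |∑ b ∈ β, cm G p (φ b) - ρ * ∑ b ∈ bs, cm G p (φ b)| ≤ τ) :
    -(ρ * M + τ + a + 1) ≤
      Real.log (∑ i ∈ r, p i * Real.exp (∑ b ∈ β, φ b i + θ i)) - Real.log (∑ i ∈ s, p i) := by
  have hG0 : 0 < ∑ i ∈ G, p i := lt_of_lt_of_le (by positivity) hG
  have hpG : ∀ i ∈ G, 0 ≤ p i := fun i hi => hp i (hrs (hGr hi))
  have h1 := jens_log (f := fun i => ∑ b ∈ β, φ b i + θ i) hGr hrs hp hs hG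
  rw [cm_add, cm_sum] at h1
  have h2 : -a ≤ cm G p θ := (abs_le.1 (abs_cm_le hpG hG0 hθ)).1
  have h3 := abs_le.1 hM
  have h4 := abs_le.1 hS
  have h5 : -(ρ * M) ≤ ρ * ∑ b ∈ bs, cm G p (φ b) := by nlinarith
  linarith [h4.1]

/-- The same with the bound of the sampled mean as hypothesis and no extra exponent. -/
theorem sub_blocks' {s r G : Finset α} {p : α → ℝ} {β : Finset ι} {φ : ι → α → ℝ} {τ : ℝ} (hGr : G ⊆ r)
    (hrs : r ⊆ s) (hp : ∀ i ∈ s, 0 ≤ p i) (hs : 0 < ∑ i ∈ s, p i) (hG : 3 / 4 * ∑ i ∈ s, p i ≤ ∑ i ∈ G, p i)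
    (hS : |∑ b ∈ β, cm G p (φ b)| ≤ τ) :
    -(τ + 1) ≤ Real.log (∑ i ∈ r, p i * Real.exp (∑ b ∈ β, φ b i)) - Real.log (∑ i ∈ s, p i) := by
  have h1 := jens_log (f := fun i => ∑ b ∈ β, φ b i) hGr hrs hp hs hG
  rw [cm_sum] at h1
  linarith [(abs_le.1 hS).1]

/-- Measurability of the conditional mean. -/
theorem measurable_cm {Ω : Type*} [MeasurableSpace Ω] {s : Finset α} {G : Ω → Finset α} {p f : Ω → α → ℝ}
    (hG : ∀ w, G w ⊆ s) (hGm : ∀ i ∈ s, MeasurableSet {w | i ∈ G w}) (hp : ∀ i ∈ s, Measurable fun w => p w i)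
    (hf : ∀ i ∈ s, Measurable fun w => f w i) : Measurable fun w => cm (G w) (p w) (f w) := by
  classical
  have key : ∀ (g : Ω → α → ℝ), (∀ i ∈ s, Measurable fun w => g w i) → Measurable fun w => ∑ i ∈ G w, g w i := by
    intro g hg
    have e : (fun w => ∑ i ∈ G w, g w i) = fun w => ∑ i ∈ s, ({w | i ∈ G w} : Set Ω).indicator (fun w => g w i) w := by
      funext w
      have e1 : ∀ i, ({w | i ∈ G w} : Set Ω).indicator (fun w => g w i) w = if i ∈ G w then g w i else 0 := fun i => by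
        by_cases h : i ∈ G w
        · rw [if_pos h]
          exact Set.indicator_of_mem (show w ∈ {w | i ∈ G w} from h) _
        · rw [if_neg h]
          exact Set.indicator_of_notMem (show w ∉ {w | i ∈ G w} from h) _
      rw [sum_congr rfl fun i _ => e1 i, ← sum_filter]
      congr 1
      ext i
      rw [mem_filter]
      exact ⟨fun h => ⟨hG w h, h⟩, fun h => h.2⟩
    rw [e]
    exact Finset.measurable_sum _ fun i hi => (hg i hi).indicator (hGm i hi)
  exact (key _ fun i hi => (hp i hi).mul (hf i hi)).div (key _ hp)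

end

end Pool.Agent.W_7d29a1_Z22
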